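import Pool.Agent.Lib.MP_b5021c_nt.KO.H39.S5a4

/-!
# MP_b5021c_nt, all `θ`, K odd, (O4), length at least five: row OC_S5A, the end
-/

set_option linter.unusedSectionVars false

namespace Pool.Agent.B5.KO.H39

open scoped LaurentPolynomial
open Polynomial
open Pool.Agent.B5 Pool.Agent.B5.KE
open Pool.Agent.B5.Nr (TrezS)
open Pool.Agent.B5.KV67 (TT1 tA_val)
open Pool.Agent.B5.OC (Oc Ar3 Ar4)

/-- `1 - ε` up to a unit. -/
theorem one_sub_eps {s n : ℤ} (hs : s = 1 ∨ s = -1) : ∃ v : (RO ℤ)ˣ,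
    1 - eps s n = (v : RO ℤ) * toLaurent (1 - Polynomial.C s * X ^ n.natAbs) := by
  rcases le_or_gt 0 n with hn | hn
  · obtain ⟨N, rfl⟩ : ∃ N : ℕ, n = N := ⟨n.toNat, (Int.toNat_of_nonneg hn).symm⟩
    refine ⟨1, ?_⟩
    rw [Units.val_one, one_mul, Int.natAbs_natCast, map_sub, map_one, ← eps_nat]
  · obtain ⟨N, hN⟩ : ∃ N : ℕ, -n = N := ⟨(-n).toNat, (Int.toNat_of_nonneg (by omega)).symm⟩
    have h1 : n.natAbs = N := by omega
    have h3 := eps_inv hs n
    rw [hN] at h3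
    refine ⟨-epsU hs n, ?_⟩
    rw [h1, Units.val_neg, epsU_val, map_sub, map_one, ← eps_nat]
    linear_combination -h3

section

variable {Q K : Type} [Fintype Q] [DecidableEq Q] [AddCommGroup K] [Module.Free ℤ K]
  [Module.Finite ℤ K]

/-- Theorem B' for a ray of the factor `U`. -/
theorem fin_i (hE2 : E2S) (hEv : EvRS) (hBx : BpxS) {psi : K →+ (Q → ℤ)} {H U : AO ℤ K}
    {u : (RO ℤ)ˣ} {cc p : ℤ[X]} {j : ℕ} (hj : 2 ≤ j) (hcc : cc ≠ 0)
    (hH : H = cst ((u : RO ℤ) * toLaurent cc) * U) (hU : DD psi U) (hV : ClassV j (U.coeff 0))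
    (hr : Module.finrank ℤ K + 1 = 2 * j) (ih : ∀ K < 2 * j, Bnk K)
    (h0 : H.coeff 0 = -toLaurent (X * (cc * p))) (hp : p.coeff 0 = j) {x : K} (hx : Ray H x)
    {e v : (RO ℤ)ˣ} {g : ℤ[X]} (hg : (e : RO ℤ) * H.coeff x = (v : RO ℤ) * toLaurent (cc * g))
    (hg0 : g.coeff 0 = 1) :
    (∀ z : ℂ, ‖z‖ = 1 → ‖(aeval z g : ℂ)‖ ≤ ‖(aeval z p : ℂ)‖) ∧ BPR.Cn j p g := by
  have hc0 : (toLaurent cc : RO ℤ) ≠ 0 := toLaurent_ne_zero.mpr hcc
  have hcu : (u : RO ℤ) * toLaurent cc ≠ 0 := mul_ne_zero u.ne_zero hc0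
  have hxU : Ray U x := by
    have h1 := hx
    unfold Ray at h1 ⊢
    rw [hH, H78.supp_cst_mul hcu] at h1
    exact h1
  have hw0 : ((-(u * H40.uT (1 : ℤˣ) (-1)) : (RO ℤ)ˣ) : RO ℤ) * U.coeff 0 = toLaurent p := by
    rw [hH, H71.cst_mul_coeff, map_mul, map_mul, toLaurent_X] at h0
    rw [Units.val_neg, Units.val_mul, H40.uT_val, Units.val_one, map_one, one_mul]
    apply mul_left_cancel₀ hc0
    linear_combination (-(LaurentPolynomial.T (-1)) : RO ℤ) * h0 +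
      (toLaurent cc * toLaurent p : RO ℤ) * TT1
  have hwx : ((v⁻¹ * (e * u) : (RO ℤ)ˣ) : RO ℤ) * U.coeff x = toLaurent g := by
    rw [hH, H71.cst_mul_coeff, map_mul] at hg
    rw [Units.val_mul, Units.val_mul]
    apply mul_left_cancel₀ hc0
    have hv : ((v⁻¹ : (RO ℤ)ˣ) : RO ℤ) * (v : RO ℤ) = 1 := v.inv_mul
    linear_combination ((v⁻¹ : (RO ℤ)ˣ) : RO ℤ) * hg + (toLaurent cc * toLaurent g : RO ℤ) * hv
  refine ⟨?_, ?_⟩
  · intro z hz
    obtain ⟨w, rfl⟩ := circle_of z hz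
    have h2 : 2 ≤ Module.finrank ℤ K := by omega
    have h3 := (hE2 ℤ Q K psi U hU h2).2.2.2.2.2 x hxU
    have h4 := h3.1 w
    have h5 : ‖(aeval (w : ℂ) p : ℂ)‖ = ‖evR w (U.coeff 0)‖ := by
      rw [← KO58.evR_pl, ← hw0, map_mul, norm_mul, (hEv ℤ).2.1 w _ (Units.isUnit _), one_mul]
    have h6 : ‖(aeval (w : ℂ) g : ℂ)‖ = ‖evR w (U.coeff x)‖ := by
      rw [← KO58.evR_pl, ← hwx, map_mul, norm_mul, (hEv ℤ).2.1 w _ (Units.isUnit _), one_mul]
    rw [h5, h6]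
    exact h4
  · exact hBx Q K psi U j x _ _ p g hj hU hV hr ih hxU hw0 hp hwx hg0

end

/-- Row OC_S5A. -/
theorem s5a (hM1 : M1S) (hMm : MmulS) (hMV : MVS) (hE1 : E1S) (hE2 : E2S)
    (hClp : ClpS) (hC0 : Coeff0S) (hG0 : G0S) (hI1 : Inj1S) (hRk : RkS) (hFD : FDS)
    (hWW : WWfS) (hRF : RayFacS) (hMug : MugS) (hMco : McoS) (hTr : TrezS) (hTsa : TsaS)
    (hRS : RaySpanS) (hFsp : FspS) (hF1 : F1S) (hVco : VcoS) (hRkU : RkUSS) (hLMN : LMNS)
    (hEv : EvRS) (hVZ : VZS) (hNd : Nd3vS) (hEvz : EvzS) (hEv1 : BdV ℤ 1 1) (hT : TsgS)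
    (hF : FcmS) (hMfc : MfcS) (hNr : Nr3S) (hBx : BpxS) : OC.S5aS := by
  classical
  intro P L _ _ _ _ _ phi D q f E γ a j eta C k Z mu psi s n W hk hA hs hsn hγ0 hγ
  change eps s n * (LaurentPolynomial.T 1 * toLaurent f - LaurentPolynomial.T (-1) * psi) =
      LaurentPolynomial.T 1 * toLaurent γ at hγ
  have h := W.cyc
  have W0 := W.kb
  have fp := W0.ko.min.fp
  have hD := fp.dd
  have hj := W0.ko.j2
  have hrk := W0.ko.rk
  have h2 : 2 ≤ Module.finrank ℤ L := by omega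
  have n1 := KO.H40.one_ne k
  have n2 := KO.H40.two_ne k
  have n3 := KO.H40.three_ne (k := k) (by omega)
  have rZ : ∀ i, Ray D (Z i) := fun i => (h.mtl i).r0
  have d02 : ∀ i, phi (Z 0) i = 0 ∨ phi (Z 2) i = 0 := h.dis 0 2 (fun e => n2 e.symm)
  obtain ⟨i0, hi0⟩ := exists_port hD (rZ 0)
  obtain ⟨i1, hi1⟩ := exists_port hD (rZ 2)
  obtain ⟨Y⟩ : Nonempty (Dp phi (Z 0) (Z 2)) :=
    ⟨{ i0 := i0
       h0 := hi0
       T := ⟨Z 2, KO.H40.port_zero d02 hi0⟩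
       eT := rfl
       i1 := i1
       k1 := (co phi i1).comp (incl _)
       hk := fun _ => rfl
       h1 := hi1 }⟩
  have G := gd_of hMm hMV hM1 hE1 hE2 hClp hC0 hG0 hI1 hRk hFD hWW hRF hMug hMco hTr hTsa hRS
    hFsp hF1 hVco hRkU hLMN W hk hA hγ0 hγ Y
  have h1 : co (phO phi (Z 0) Y.i0) Y.i1 Y.T = 1 := by
    rw [G.co1]
    exact Y.h1
  have hrG := G.rkG
  -- the coefficient of `Z 2` in `G`
  have hg2 : (eta (Z 2) : RO ℤ) * (GG D eta Y).coeff Y.T =
      eps s (-n) * (LaurentPolynomial.T 1 * toLaurent γ) := by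
    rw [OC23.g2_coeff W hA Y, ← hγ]
    linear_combination -(LaurentPolynomial.T 1 * toLaurent f - LaurentPolynomial.T (-1) * psi) *
      eps_inv hs n
  have hnE : ∀ w : Circle, ‖evR w ((GG D eta Y).coeff 0)‖ = ‖(aeval (w : ℂ) E : ℂ)‖ := by
    intro w
    rw [G.c0, map_neg, norm_neg, KO58.evR_pl, map_mul, aeval_X, norm_mul, Circle.norm_coe, one_mul]
  have hng : ∀ w : Circle, ‖evR w ((GG D eta Y).coeff Y.T)‖ = ‖(aeval (w : ℂ) γ : ℂ)‖ := by
    intro w
    have h3 := congrArg (fun x => ‖evR w x‖) hg2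
    simp only [map_mul, norm_mul] at h3
    rw [(hEv ℤ).2.1 w _ (eta (Z 2)).isUnit, one_mul] at h3
    rw [h3, ← epsU_inv hs n, (hEv ℤ).2.1 w _ (Units.isUnit _), one_mul,
      (hEv ℤ).2.1 w _ (LaurentPolynomial.isUnit_T 1), one_mul, KO58.evR_pl]
  obtain ⟨hle, wst, hst⟩ := (hE2 ℤ P _ _ _ G.dd (by omega)).2.2.2.2.2 Y.T (G.ray Y.T (Or.inl Y.eT)).1
  have hle' : ∀ z : ℂ, ‖z‖ = 1 → ‖(aeval z γ : ℂ)‖ ≤ ‖(aeval z E : ℂ)‖ := by
    intro z hz
    obtain ⟨w, rfl⟩ := circle_of z hz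
    rw [← hnE, ← hng]
    exact hle w
  have hlt := lt_disc hVZ W.Ez hle' ⟨wst, Circle.norm_coe wst, by rw [← hnE, ← hng]; exact hst⟩
  have hz : ∀ z : ℂ, ‖z‖ < 1 → (aeval z (E - γ) : ℂ) ≠ 0 := by
    intro z hz hc
    rw [map_sub, sub_eq_zero] at hc
    have h3 := hlt z hz
    rw [hc] at h3
    exact lt_irrefl _ h3
  -- the constant coefficients
  have hev0 : ∀ p : ℤ[X], (aeval (0 : ℂ) p : ℂ) = ((p.coeff 0 : ℤ) : ℂ) := by
    intro p
    rw [aeval_def, eval₂_eq_eval_map, ← coeff_zero_eq_eval_zero, coeff_map]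
    rfl
  have hγj : γ.coeff 0 < j + 1 := by
    have h3 := hlt 0 (by simp)
    rw [hev0, hev0, W.E0, Complex.norm_intCast, Complex.norm_intCast] at h3
    have h4 : |γ.coeff 0| < |(j : ℤ) + 1| := by exact_mod_cast h3
    rw [abs_of_pos (by omega), abs_of_pos (by omega)] at h4
    exact h4
  obtain ⟨N, hN⟩ : ∃ N : ℕ, (N : ℤ) = j + 1 - γ.coeff 0 :=
    ⟨(j + 1 - γ.coeff 0).toNat, Int.toNat_of_nonneg (by omega)⟩
  have hEγ0 : (E - γ).coeff 0 = N := by
    rw [coeff_sub, W.E0, hN]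
  have hN1 : 1 ≤ N := by omega
  have hEγ : E - γ ≠ 0 := by
    intro h3
    rw [h3, coeff_zero] at hEγ0
    omega
  -- the closing
  have hc0 : (HH D eta Y h1 (eta (Z 2) * epsU hs n)).coeff 0 = -toLaurent (X * (E - γ)) := by
    rw [hh_csm hD.bin d02 Y G.co1 h1]
    change csm D (Z 0) (Z 2) (eta (Z 0) * tA) (eta (Z 2) * epsU hs n) (0 : L) = _
    refine co_z0 hs W.co hA hγ ?_
    have h3 := G.c0
    have h4 : (GG D eta Y).coeff 0 = D.coeff 0 + ((eta (Z 0) * tA : (RO ℤ)ˣ) : RO ℤ) *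
        D.coeff (Z 0) := by
      have h5 := KO67.cl_co hD Y.h0 (eta (Z 0) * tA) 0
      rw [h5]
      change D.coeff (0 : L) + _ * D.coeff ((0 : L) + Z 0) = _
      rw [zero_add]
    rw [← h4]
    exact h3
  have hcl0 : (GG D eta Y).coeff 0 + ((eta (Z 2) * epsU hs n : (RO ℤ)ˣ) : RO ℤ) *
      (GG D eta Y).coeff Y.T = -toLaurent (X * (E - γ)) := by
    rw [G.c0, Units.val_mul, epsU_val, mul_sub, map_sub, map_mul toLaurent X γ, toLaurent_X]
    linear_combination eps s n * hg2 + (LaurentPolynomial.T 1 * toLaurent γ : RO ℤ) *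
      eps_inv hs n
  have hV : ClassV (N : ℝ) ((GG D eta Y).coeff 0 +
      ((eta (Z 2) * epsU hs n : (RO ℤ)ˣ) : RO ℤ) * (GG D eta Y).coeff Y.T) := by
    rw [hcl0]
    refine H66.classV_of (a := 1) (x' := -(E - γ)) (by exact_mod_cast hN1) ?_ ?_ ?_
    · rw [map_mul, toLaurent_X, map_neg]
      ring
    · rw [coeff_neg, hEγ0]
      push_cast
      rw [abs_neg, abs_of_nonneg (Nat.cast_nonneg N)]
    · intro z hz'
      rw [KO67.aeval_emb, map_neg]
      exact neg_ne_zero.mpr (hz z hz')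
  have hne1 : eta (Z 2) * epsU hs n ≠ eta (Z 2) := by
    intro h3
    have h4 : epsU hs n = 1 := by rwa [mul_eq_left] at h3
    exact eps_ne_one hsn (by rw [← epsU_val hs, h4, Units.val_one])
  have hnod := nod_of hNd W.Ez hle' hEγ
  have hE0γ : E.coeff 0 ≠ γ.coeff 0 := by
    rw [W.E0]
    omega
  have hsf := OC23.nsm hT hF hMfc hNr P L phi D q f E γ a j eta C k Z mu psi s n hs Y W hk hA hsn
    hγ0 hγ G hnod hE0γ h1
  -- the rays
  obtain ⟨x1, hx1⟩ := exZ h (i := 1) (fun e => n1 e.symm) (fun e => n1 (by linear_combination e)) Y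
    G.co1
  obtain ⟨x3, hx3⟩ := exZ h (i := 3) (fun e => n3 e.symm) (fun e => n1 (by linear_combination -e)) Y
    G.co1
  obtain ⟨xm, hxm⟩ := exZ h (i := -1) (fun e => n1 (by linear_combination e))
    (fun e => n3 (by linear_combination e)) Y G.co1
  have k1 : (eta (Z 1) : RO ℤ) * (HH D eta Y h1 (eta (Z 2) * epsU hs n)).coeff x1 =
      (1 - eps s n) * toLaurent ((1 + X) * f) := by
    rw [hh_csm hD.bin d02 Y G.co1 h1, hx1]
    exact co_z1 hs W.co hA
  have k3 : (eta (Z 3) : RO ℤ) * (HH D eta Y h1 (eta (Z 2) * epsU hs n)).coeff x3 =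
      (1 - eps s n) * eps s (-n) * toLaurent (X * γ) := by
    rw [hh_csm hD.bin d02 Y G.co1 h1, hx3]
    exact co_z3 hs W.co hA hγ
  have km : (eta (Z (-1)) : RO ℤ) * (HH D eta Y h1 (eta (Z 2) * epsU hs n)).coeff xm =
      (1 + LaurentPolynomial.T (-1)) * (toLaurent (X * f) + eps s n * psi) := by
    rw [hh_csm hD.bin d02 Y G.co1 h1, hxm]
    exact co_zm hs W.co hA
  obtain ⟨v, hv⟩ := one_sub_eps (n := n) hs
  have hfne : f ≠ 0 := by
    intro h3
    have := W.f0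
    rw [h3, coeff_zero] at this
    exact zero_ne_one this
  have hγne : γ ≠ 0 := by
    intro h3
    rw [h3, coeff_zero] at hγ0
    omega
  have h1X : (1 + X : ℤ[X]) ≠ 0 := by
    intro h3
    have h4 := congrArg (fun p : ℤ[X] => p.coeff 0) h3
    simp at h4
  have he1 : (1 - eps s n : RO ℤ) ≠ 0 := fun h3 => eps_ne_one hsn (sub_eq_zero.mp h3).symm
  have r1 : Ray (HH D eta Y h1 (eta (Z 2) * epsU hs n)) x1 := by
    refine hh_ray_i hE2 hRS hD h2 h hk (i := 1) (Or.inl rfl) Y G.co1 h1 _ hx1 ?_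
    intro h3
    rw [h3, mul_zero] at k1
    exact mul_ne_zero he1 (toLaurent_ne_zero.mpr (mul_ne_zero h1X hfne)) k1.symm
  have r3 : Ray (HH D eta Y h1 (eta (Z 2) * epsU hs n)) x3 := by
    refine hh_ray_i hE2 hRS hD h2 h hk (i := 3) (Or.inr (Or.inl rfl)) Y G.co1 h1 _ hx3 ?_
    intro h3
    rw [h3, mul_zero] at k3
    have hi0 : (eps s (-n) : RO ℤ) ≠ 0 := right_ne_zero_of_mul ((eps_inv hs n).trans_ne one_ne_zero)
    exact mul_ne_zero (mul_ne_zero he1 hi0) (toLaurent_ne_zero.mpr (mul_ne_zero X_ne_zero hγne))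
      k3.symm
  -- `n = 0`
  have km0 : n = 0 → (eta (Z (-1)) : RO ℤ) * (HH D eta Y h1 (eta (Z 2) * epsU hs n)).coeff xm =
      toLaurent ((1 + X) * (f - X * (f + γ))) := by
    intro hn0
    have hs1 : s = -1 := by
      rcases hs with h3 | h3
      · rcases hsn with h4 | h4
        · exact absurd h3 h4
        · exact absurd hn0 h4
      · exact h3
    have heps : (eps s n : RO ℤ) = -1 := by
      rw [hs1, hn0]
      unfold eps
      rw [LaurentPolynomial.T_zero, mul_one, map_neg, map_one]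
    rw [km, heps]
    rw [heps] at hγ
    have h3 : (LaurentPolynomial.T 1 : RO ℤ) = toLaurent X := toLaurent_X.symm
    simp only [map_mul, map_add, map_sub, map_one, toLaurent_X]
    linear_combination (-(LaurentPolynomial.T 1 + 1) : RO ℤ) * hγ + (toLaurent f + psi) * TT1
  have hstart : (1 + X : ℤ[X]).coeff 0 = 1 := by simp
  have hgm0 : ((1 + X) * (f - X * (f + γ)) : ℤ[X]).coeff 0 = 1 := by
    rw [mul_coeff_zero, hstart, one_mul, coeff_sub, coeff_X_mul_zero, sub_zero, W.f0]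
  have rm : n = 0 → Ray (HH D eta Y h1 (eta (Z 2) * epsU hs n)) xm := by
    intro hn0
    refine hh_ray_i hE2 hRS hD h2 h hk (i := -1) (Or.inr (Or.inr rfl)) Y G.co1 h1 _ hxm ?_
    intro h3
    have h4 := km0 hn0
    rw [h3, mul_zero] at h4
    have h5 : ((1 + X) * (f - X * (f + γ)) : ℤ[X]) ≠ 0 := by
      intro h6
      rw [h6, coeff_zero] at hgm0
      exact zero_ne_one hgm0
    exact toLaurent_ne_zero.mpr h5 h4.symm
  have hpn0 : n ≠ 0 → (1 - Polynomial.C s * X ^ n.natAbs : ℤ[X]).coeff 0 = 1 := by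
    intro hn0
    rw [coeff_sub, coeff_one_zero, coeff_C_mul, coeff_X_pow,
      if_neg (fun e => hn0 (Int.natAbs_eq_zero.mp e.symm)), mul_zero, sub_zero]
  -- one factor
  obtain ⟨xT, e1, gT, rT, hgT, hkT⟩ : ∃ (x : Ker (co (phO phi (Z 0) Y.i0) Y.i1)) (e1 : RO ℤ)
      (g : ℤ[X]), Ray (HH D eta Y h1 (eta (Z 2) * epsU hs n)) x ∧ |g.coeff 0| = 1 ∧
      e1 * (HH D eta Y h1 (eta (Z 2) * epsU hs n)).coeff x =
        LaurentPolynomial.T 0 * toLaurent g := by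
    by_cases hn0 : n = 0
    · refine ⟨xm, _, _, rm hn0, ?_, (km0 hn0).trans (by rw [LaurentPolynomial.T_zero, one_mul])⟩
      rw [hgm0, abs_one]
    · refine ⟨x1, ((v⁻¹ : (RO ℤ)ˣ) : RO ℤ) * (eta (Z 1) : RO ℤ),
        (1 - Polynomial.C s * X ^ n.natAbs) * ((1 + X) * f), r1, ?_, ?_⟩
      · rw [mul_coeff_zero, hpn0 hn0, mul_coeff_zero, hstart, W.f0, one_mul, one_mul, abs_one]
      · have hvi : ((v⁻¹ : (RO ℤ)ˣ) : RO ℤ) * (v : RO ℤ) = 1 := v.inv_mul
        rw [LaurentPolynomial.T_zero, one_mul, map_mul, mul_assoc, k1, hv]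
        linear_combination (toLaurent (1 - Polynomial.C s * X ^ n.natAbs) *
          toLaurent ((1 + X) * f) : RO ℤ) * hvi
  obtain ⟨c, U, hc1, hcU, hUdd, hUV⟩ := H67.one_fac hFD hG0 hC0 hE1 hMV hMm hRk hWW hRF
    (phO phi (Z 0) Y.i0) (GG D eta Y) Y.T Y.i1 h1 (eta (Z 2) * epsU hs n) N G.dd (by omega)
    (G.ray Y.T (Or.inl Y.eT)).1 (G.ray Y.T (Or.inl Y.eT)).2 hV (G.fr _ hne1 h1)
    (fun c m G' fd hM => hsf c m G' fd hM) xT rT e1 0 gT hgT hkT
  have hrK := finrank_ker hRk h1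
  have hγ1 : γ.coeff 0 = 1 := by
    rcases Nat.lt_or_ge 1 N with h3 | h3
    · have h4 := hEvz N h3 P _ _ U hUdd hUV
      have h5 : Module.finrank ℤ (Ker (co (phO phi (Z 0) Y.i0) Y.i1)) ≤ 2 * N := by
        exact_mod_cast h4
      omega
    · exfalso
      have h4 : N = 1 := by omega
      rw [h4, Nat.cast_one] at hUV
      have h5 := hEv1 P _ _ U hUdd hUV
      have h6 : Module.finrank ℤ (Ker (co (phO phi (Z 0) Y.i0) Y.i1)) ≤ 1 := by
        exact_mod_cast h5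
      omega
  have hNj : N = j := by omega
  rw [hNj] at hUV hEγ0
  refine ⟨hγ1, ?_⟩
  -- the content
  have hHU : HH D eta Y h1 (eta (Z 2) * epsU hs n) = cst c * U := hcU
  have hz0 : ∀ z : Circle, evR z c = 0 → (z : ℂ) = -1 ∧ evR z (eps s n) = 1 ∧
      (aeval (z : ℂ) E : ℂ) = aeval (z : ℂ) γ := by
    intro z hzc
    refine zero_pt hs W hk hA hγ Y G h1 hc0 z fun x => ?_
    rw [hHU, H71.cst_mul_coeff, map_mul, hzc, zero_mul]
  have hcU0 : c * U.coeff 0 = -toLaurent (X * (E - γ)) := by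
    rw [← H71.cst_mul_coeff, ← hHU]
    exact hc0
  have hnd : ∀ x : RO ℤ, c ≠ toLaurent ((1 + X) ^ 2) * x := by
    intro x hx
    rw [hx] at hcU0
    have hR0 : (-toLaurent (X * (E - γ)) : RO ℤ) ≠ 0 :=
      neg_ne_zero.mpr (toLaurent_ne_zero.mpr (mul_ne_zero X_ne_zero hEγ))
    have hy0 : x * U.coeff 0 ≠ 0 := by
      intro h3
      rw [mul_assoc, h3, mul_zero] at hcU0
      exact hR0 hcU0.symm
    obtain ⟨b, r, hr0, hr⟩ := H67.nf_exists hy0
    have hu : (LaurentPolynomial.T b : RO ℤ) * toLaurent ((1 + X) ^ 2 * r) =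
        LaurentPolynomial.T 1 * toLaurent (-(E - γ)) := by
      rw [map_mul toLaurent X, toLaurent_X] at hcU0
      rw [map_mul toLaurent ((1 + X) ^ 2), map_neg]
      linear_combination hcU0 - (toLaurent ((1 + X) ^ 2) : RO ℤ) * hr
    obtain ⟨-, h4⟩ := H56.nf_unique b 1 _ _ (by
      rw [mul_coeff_zero, pow_two, mul_coeff_zero, hstart, one_mul, one_mul]
      exact hr0) (by
      rw [coeff_neg, hEγ0]
      have : (j : ℤ) ≠ 0 := by exact_mod_cast (by omega : j ≠ 0)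
      exact neg_ne_zero.mpr this) hu
    apply hnod (-1) (by simp)
    refine ⟨(-r).map (Coef.emb : ℤ →+* ℂ), ?_⟩
    have h5 : E - γ = (1 + X) ^ 2 * (-r) := by linear_combination h4
    rw [h5, Polynomial.map_mul, Polynomial.map_pow, Polynomial.map_add, Polynomial.map_one, map_X,
      map_neg, map_one, sub_neg_eq_add, add_comm (1 : ℂ[X])]
  have hcase : ∃ (u : (RO ℤ)ˣ) (cc p g1 g3 : ℤ[X]), (cc = 1 ∨ (cc = 1 + X ∧ n ≠ 0)) ∧
      c = (u : RO ℤ) * toLaurent cc ∧ E - γ = cc * p ∧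
      cc * g1 = (1 + X) * (1 - Polynomial.C s * X ^ n.natAbs) * f ∧
      cc * g3 = (1 - Polynomial.C s * X ^ n.natAbs) * γ := by
    rcases content_of hM1 hMm hMV hc1 (fun z hzc => (hz0 z hzc).1) hnd with ⟨u, hu⟩ |
      ⟨⟨z, hzc⟩, u, hu⟩
    · exact ⟨u, 1, E - γ, _, _, Or.inl rfl, by rw [map_one, mul_one]; exact hu, by rw [one_mul],
        by rw [one_mul], by rw [one_mul]⟩
    · obtain ⟨hz1, hz2, hz3⟩ := hz0 z hzc
      have hn0 : n ≠ 0 := by
        intro hn0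
        have hs1 : s = -1 := by
          rcases hs with h3 | h3
          · rcases hsn with h4 | h4
            · exact absurd h3 h4
            · exact absurd hn0 h4
          · exact h3
        rw [evR_eps, hs1, hn0, zpow_zero] at hz2
        norm_num at hz2
      rw [hz1] at hz3
      obtain ⟨p, hp⟩ := root_int (p := E - γ) (by rw [map_sub, hz3, sub_self])
      obtain ⟨r, hr⟩ := root_int (p := 1 - Polynomial.C s * X ^ n.natAbs) (by
        have h3 := congrArg (evR z) hv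
        rw [map_sub, map_one, hz2, sub_self, map_mul, KO58.evR_pl, hz1] at h3
        have h4 : evR z (v : RO ℤ) ≠ 0 := by
          intro h5
          have h6 := (hEv ℤ).2.1 z _ v.isUnit
          rw [h5, norm_zero] at h6
          exact zero_ne_one h6
        exact (mul_eq_zero.mp h3.symm).resolve_left h4)
      refine ⟨u, 1 + X, p, (1 - Polynomial.C s * X ^ n.natAbs) * f, r * γ, Or.inr ⟨rfl, hn0⟩, hu,
        hp, by ring, ?_⟩
      rw [hr]
      ring
  obtain ⟨u, cc, p, g1, g3, hcc, hcu, hp, hg1, hg3⟩ := hcase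
  have hcc0 : cc.coeff 0 = 1 := by
    rcases hcc with h3 | ⟨h3, -⟩
    · rw [h3, coeff_one_zero]
    · rw [h3, hstart]
  have hccne : cc ≠ 0 := by
    intro h3
    rw [h3, coeff_zero] at hcc0
    exact zero_ne_one hcc0
  have hp0 : p.coeff 0 = j := by
    rw [← hEγ0, hp, mul_coeff_zero, hcc0, one_mul]
  have hHU' : HH D eta Y h1 (eta (Z 2) * epsU hs n) = cst ((u : RO ℤ) * toLaurent cc) * U := by
    rw [← hcu]
    exact hHU
  have hH0 : (HH D eta Y h1 (eta (Z 2) * epsU hs n)).coeff 0 = -toLaurent (X * (cc * p)) := by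
    rw [hc0, hp]
  have ih : ∀ K < 2 * j, Bnk K := fun K hK => W0.ko.ih K (by omega)
  refine ⟨cc, p, hcc, by linear_combination hp, ?_, ?_, ?_⟩
  · intro z hz' h3
    apply hz z hz'
    rw [hp, map_mul, h3, mul_zero]
  · intro hn0
    have hg10 : g1.coeff 0 = 1 := by
      have h3 := congrArg (fun p : ℤ[X] => p.coeff 0) hg1
      simp only [mul_coeff_zero] at h3
      rw [hcc0, hstart, hpn0 hn0, W.f0] at h3
      simpa using h3
    have hg30 : g3.coeff 0 = 1 := by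
      have h3 := congrArg (fun p : ℤ[X] => p.coeff 0) hg3
      simp only [mul_coeff_zero] at h3
      rw [hcc0, hpn0 hn0, hγ1] at h3
      simpa using h3
    refine ⟨⟨g1, hg1, ?_⟩, ⟨g3, hg3, ?_⟩⟩
    · refine fin_i hE2 hEv hBx hj hccne hHU' hUdd hUV (by omega) ih hH0 hp0 r1 (e := eta (Z 1))
        (v := v) ?_ hg10
      rw [k1, hv, hg1]
      simp only [map_mul]
      ring
    · refine fin_i hE2 hEv hBx hj hccne hHU' hUdd hUV (by omega) ih hH0 hp0 r3 (e := eta (Z 3))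
        (v := v * (epsU hs n)⁻¹ * H40.uT (1 : ℤˣ) 1) ?_ hg30
      rw [k3, hv, hg3, Units.val_mul, Units.val_mul, epsU_inv, H40.uT_val, Units.val_one, map_one,
        one_mul]
      simp only [map_mul, toLaurent_X]
      ring
  · intro hn0
    have hcc1 : cc = 1 := by
      rcases hcc with h3 | ⟨-, h3⟩
      · exact h3
      · exact absurd hn0 h3
    refine (fin_i hE2 hEv hBx hj hccne hHU' hUdd hUV (by omega) ih hH0 hp0 (rm hn0)
      (e := eta (Z (-1))) (v := 1) ?_ hgm0).2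
    rw [km0 hn0, hcc1, one_mul, Units.val_one, one_mul]

end Pool.Agent.B5.KO.H39
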