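import Pool.Agent.Lib.MP_b5021c_nt.KO.H39.S5aI
import Pool.Agent.Lib.MP_b5021c_nt.OF.H29.Of2
import Pool.Agent.Lib.MP_b5021c_nt.E.H78.Fcl
import Pool.Agent.Lib.MP_b5021c_nt.KO.H67.Sf2
import Pool.Agent.Lib.MP_b5021c_nt.KO.H58.BeAsm
import Pool.Agent.Lib.MP_b5021c_nt.KO.H40.K4w

/-!
# MP_b5021c_nt, all `θ`, K odd, (O4), length at least five: row OC_S5A, one variable

`ε = s z^n ≠ 1`.  The mass of a small factor of `G(y_2 = ε)` is one, `E = (2 - ε) γ`, and this is
impossible.
-/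

set_option linter.unusedSectionVars false

namespace Pool.Agent.B5.KO.H39

open scoped LaurentPolynomial
open Polynomial
open Pool.Agent.B5 Pool.Agent.B5.KE
open Pool.Agent.B5.OFH29 (toL_neg toL_nat nn_sym)

theorem eps_nat (s : ℤ) (N : ℕ) : eps s N = toLaurent (C s * X ^ N) := by
  unfold eps
  rw [map_mul, toLaurent_C, map_pow, toLaurent_X, LaurentPolynomial.T_pow, mul_one]

theorem eps_ne_one {s n : ℤ} (hsn : s ≠ 1 ∨ n ≠ 0) : eps s n ≠ 1 := by
  intro h
  have e1 : eps s n = AddMonoidAlgebra.single n s := by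
    unfold eps
    rw [← LaurentPolynomial.single_eq_C_mul_T]
  have h1 := congrArg (fun x : RO ℤ => x.coeff 0) h
  have h2 : (1 : RO ℤ).coeff 0 = 1 := by
    rw [AddMonoidAlgebra.one_def, AddMonoidAlgebra.coeff_single, Finsupp.single_eq_same]
  simp only [e1, AddMonoidAlgebra.coeff_single, h2] at h1
  rw [Finsupp.single_apply] at h1
  split_ifs at h1 with h3
  · rcases hsn with h4 | h4
    · exact h4 h1
    · exact h4 h3
  · exact zero_ne_one h1

/-- `t P₂ = P₁` with a nonnegative mass `t` and `P₂(0) ≠ 0`: `t` is a positive integer. -/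
theorem t_const (hNr : Nr3S) {P1 P2 : ℤ[X]} {t : RO ℤ} (ht : t ≠ 0) (hn : NnR t)
    (h2 : P2.coeff 0 ≠ 0) (h : (toLaurent P1 : RO ℤ) = t * toLaurent P2) :
    ∃ tau : ℤ, 1 ≤ tau ∧ t = LaurentPolynomial.C tau := by
  have h0 := (SFH27.nr_int hNr ht hn).1
  obtain ⟨n, g, hg, htg⟩ := H67.nf_exists ht
  have hcg : t.coeff n = g.coeff 0 := by
    rw [htg, H78.T_mul_coeff, sub_self]
    exact toL_nat g 0
  have hlow : ∀ k, k < n → t.coeff k = 0 := by
    intro k hk
    rw [htg, H78.T_mul_coeff]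
    exact toL_neg g _ (by omega)
  have hn0 : n ≤ 0 := by
    by_contra hcon
    have := hlow 0 (by omega)
    omega
  have hn1 : 0 ≤ n := by
    by_contra hcon
    have h3 : (toLaurent P1 : RO ℤ).coeff n = 0 := toL_neg P1 n (by omega)
    rw [h, htg, mul_assoc, ← map_mul, H78.T_mul_coeff, sub_self] at h3
    have h4 := toL_nat (g * P2) 0
    rw [Nat.cast_zero, h3, mul_coeff_zero] at h4
    exact mul_ne_zero hg h2 h4.symm
  have hn2 : n = 0 := by omega
  subst hn2
  refine ⟨t.coeff 0, h0, ?_⟩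
  apply AddMonoidAlgebra.ext
  apply Finsupp.ext
  intro k
  rw [← LaurentPolynomial.single_eq_C, AddMonoidAlgebra.coeff_single, Finsupp.single_apply]
  split_ifs with hk
  · rw [hk]
  · rcases lt_or_gt_of_ne hk with h3 | h3
    · have h4 := nn_sym hNr ht hn k
      rw [← h4]
      exact hlow _ (by omega)
    · exact hlow _ h3

theorem evR_eps (z : Circle) (s n : ℤ) : evR z (eps s n) = (s : ℂ) * (z : ℂ) ^ n := by
  unfold eps
  rw [map_mul, KO67.evT67]
  congr 1
  have h1 : (LaurentPolynomial.C s : RO ℤ) = toLaurent (C s : ℤ[X]) := (toLaurent_C s).symm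
  rw [h1, KO58.evR_pl, aeval_C]
  simp

/-- A point with `ε(z) = -1`. -/
theorem eps_point {s n : ℤ} (hs : s = 1 ∨ s = -1) (hsn : s ≠ 1 ∨ n ≠ 0) :
    ∃ z : Circle, evR z (eps s n) = -1 := by
  rcases hs with rfl | rfl
  · have hn : n ≠ 0 := by
      rcases hsn with h | h
      · exact absurd rfl h
      · exact h
    refine ⟨Circle.exp (Real.pi / n), ?_⟩
    rw [evR_eps, Int.cast_one, one_mul, Circle.coe_exp, ← Complex.exp_int_mul]
    have hnC : (n : ℂ) ≠ 0 := by exact_mod_cast hn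
    have h1 : (n : ℂ) * (((Real.pi / n : ℝ) : ℂ) * Complex.I) = Real.pi * Complex.I := by
      push_cast
      field_simp
    rw [h1, Complex.exp_pi_mul_I]
  · refine ⟨1, ?_⟩
    rw [evR_eps]
    simp

/-- THE MASS IS ONE. -/
theorem tau_one (hNr : Nr3S) {E γ : ℤ[X]} {s n : ℤ} {t : RO ℤ} (hs : s = 1 ∨ s = -1)
    (hsn : s ≠ 1 ∨ n ≠ 0) (h0 : E.coeff 0 ≠ γ.coeff 0) (ht : t ≠ 0) (hn : NnR t)
    (hT : toLaurent E - eps s (-n) * toLaurent γ =
      (1 - eps s (-n)) * (t * (toLaurent E - toLaurent γ)))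
    (hf : ∀ z : Circle, evR z (eps s (-n)) = -1 → ∀ x y : ℂ, ‖x‖ < 1 → ‖y‖ < 1 →
      (aeval (z : ℂ) E : ℂ) + aeval (z : ℂ) γ * (x + y - x * y) ≠ 0) : t = 1 := by
  have hE0 : (E - γ).coeff 0 ≠ 0 := by
    rw [coeff_sub]
    exact sub_ne_zero.mpr h0
  have key : ∃ tau : ℤ, 1 ≤ tau ∧ t = LaurentPolynomial.C tau := by
    rcases le_or_gt 0 n with hn0 | hn0
    · obtain ⟨N, rfl⟩ : ∃ N : ℕ, n = N := ⟨n.toNat, (Int.toNat_of_nonneg hn0).symm⟩
      refine t_const hNr (P1 := C s * X ^ N * E - γ) (P2 := (C s * X ^ N - 1) * (E - γ)) ht hn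
        ?_ ?_
      · rw [mul_coeff_zero]
        refine mul_ne_zero ?_ hE0
        rw [coeff_sub, coeff_C_mul, coeff_X_pow, coeff_one_zero]
        rcases Nat.eq_zero_or_pos N with h3 | h3
        · subst h3
          rcases hs with h4 | h4
          · exfalso
            rcases hsn with h5 | h5
            · exact h5 h4
            · exact h5 rfl
          · rw [h4]; norm_num
        · rw [if_neg (by omega)]; norm_num
      · have h3 := eps_inv hs (N : ℤ)
        rw [map_sub, map_mul, ← eps_nat, map_mul, map_sub, ← eps_nat, map_one, map_sub]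
        linear_combination eps s N * hT - (-toLaurent γ + t * (toLaurent E - toLaurent γ)) * h3
    · obtain ⟨N, hN⟩ : ∃ N : ℕ, -n = N := ⟨(-n).toNat, (Int.toNat_of_nonneg (by omega)).symm⟩
      rw [hN] at hT
      refine t_const hNr (P1 := E - C s * X ^ N * γ) (P2 := (1 - C s * X ^ N) * (E - γ)) ht hn
        ?_ ?_
      · rw [mul_coeff_zero]
        refine mul_ne_zero ?_ hE0
        rw [coeff_sub, coeff_C_mul, coeff_X_pow, coeff_one_zero, if_neg (by omega)]
        norm_num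
      · rw [map_sub, map_mul (toLaurent (R := ℤ)) (C s * X ^ N), ← eps_nat, map_mul, map_sub,
          ← eps_nat, map_one, map_sub]
        linear_combination hT
  obtain ⟨tau, h1, h2⟩ := key
  by_cases h3 : tau = 1
  · rw [h2, h3, map_one]
  exfalso
  have h4 : 2 ≤ tau := by omega
  obtain ⟨z, hz⟩ := eps_point (n := -n) hs (by
    rcases hsn with h | h
    · exact Or.inl h
    · exact Or.inr (neg_ne_zero.mpr h))
  have h5 := congrArg (evR z) hT
  rw [map_sub, map_mul, map_mul, map_sub, map_mul, map_sub, map_one, hz, KO58.evR_pl,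
    KO58.evR_pl, h2] at h5
  have h6 : evR z (LaurentPolynomial.C tau : RO ℤ) = (tau : ℂ) := by
    rw [← toLaurent_C tau, KO58.evR_pl, aeval_C]
    simp
  rw [h6] at h5
  obtain ⟨r, hr⟩ : ∃ r : ℝ, r = Real.sqrt (4 * tau / (2 * tau - 1)) := ⟨_, rfl⟩
  have htr : (2 : ℝ) ≤ tau := by exact_mod_cast h4
  have hd : (0 : ℝ) < 2 * tau - 1 := by linarith
  have hr2 : r ^ 2 = 4 * tau / (2 * tau - 1) := by
    rw [hr, Real.sq_sqrt]
    positivity
  have hr0 : 0 < r := by
    rw [hr]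
    apply Real.sqrt_pos.mpr
    positivity
  have hr3 : r < 2 := by
    by_contra hcon
    push Not at hcon
    have h7 : 4 ≤ r ^ 2 := by nlinarith
    rw [hr2, le_div_iff₀ hd] at h7
    linarith
  have hx : ‖(((1 - r : ℝ)) : ℂ)‖ < 1 := by
    rw [Complex.norm_real, Real.norm_eq_abs, abs_lt]
    constructor <;> linarith
  have h7 := hf z hz _ _ hx hx
  apply h7
  have h8 : (((1 - r : ℝ)) : ℂ) + (((1 - r : ℝ)) : ℂ) - (((1 - r : ℝ)) : ℂ) * (((1 - r : ℝ)) : ℂ) =
      ((1 - r ^ 2 : ℝ) : ℂ) := by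
    push_cast
    ring
  rw [h8, hr2]
  have hdC : ((2 : ℂ) * tau - 1) ≠ 0 := by
    have : (((2 * tau - 1 : ℝ)) : ℂ) ≠ 0 := by exact_mod_cast hd.ne'
    push_cast at this
    exact this
  push_cast
  apply mul_left_cancel₀ hdC
  rw [mul_zero]
  have h9 : ((2 : ℂ) * tau - 1) * (aeval (z : ℂ) E + aeval (z : ℂ) γ * (1 - 4 * tau / (2 * tau - 1))) =
      (2 * tau - 1) * aeval (z : ℂ) E - (2 * tau + 1) * aeval (z : ℂ) γ := by
    field_simp
    ring
  rw [h9]
  linear_combination -h5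

/-- `E = (2 - ε) γ`. -/
theorem E_of_tau {E γ : ℤ[X]} {s n : ℤ} (hs : s = 1 ∨ s = -1)
    (hT : toLaurent E - eps s (-n) * toLaurent γ =
      (1 - eps s (-n)) * ((1 : RO ℤ) * (toLaurent E - toLaurent γ))) :
    (toLaurent E : RO ℤ) = (2 - eps s n) * toLaurent γ := by
  have h3 := eps_inv hs n
  linear_combination (eps s n) * hT - (toLaurent E - 2 * toLaurent γ : RO ℤ) * h3

/-- The class of `Z 1` is not zero. -/
theorem z1_no {f γ E : ℤ[X]} {psi : RO ℤ} {s n : ℤ} (hs : s = 1 ∨ s = -1)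
    (hsn : s ≠ 1 ∨ n ≠ 0) (hf0 : f.coeff 0 = 1) (hγ0 : γ.coeff 0 ≠ 0)
    (hE : (toLaurent E : RO ℤ) = (2 - eps s n) * toLaurent γ)
    (hγ : eps s n * (LaurentPolynomial.T 1 * toLaurent f - LaurentPolynomial.T (-1) * psi) =
      LaurentPolynomial.T 1 * toLaurent γ)
    (h1 : LaurentPolynomial.T 1 * toLaurent f * (1 - eps s n + eps s n ^ 2) + psi * eps s n = 0) :
    False := by
  rcases le_or_gt 0 n with hn0 | hn0
  · obtain ⟨N, rfl⟩ : ∃ N : ℕ, n = N := ⟨n.toNat, (Int.toNat_of_nonneg hn0).symm⟩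
    have hTT : (LaurentPolynomial.T (-1) * LaurentPolynomial.T 1 : RO ℤ) = 1 := KV67.TT1
    have h2 : (toLaurent (C s * X ^ N * (X * f) + f * (1 - C s * X ^ N + (C s * X ^ N) ^ 2)) :
        RO ℤ) = toLaurent (X * γ) := by
      simp only [map_add, map_mul toLaurent (C s * X ^ N), map_mul toLaurent X,
        map_mul toLaurent f, map_sub, map_pow toLaurent (C s * X ^ N), ← eps_nat, map_one,
        toLaurent_X]
      linear_combination hγ + LaurentPolynomial.T (-1) * h1 - toLaurent f *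
        (1 - eps s N + eps s N ^ 2) * hTT
    have h3 := toLaurent_injective h2
    have h4 := congrArg (fun p : ℤ[X] => p.coeff 0) h3
    simp only [coeff_add, mul_coeff_zero, coeff_X_zero, zero_mul, mul_zero, zero_add, hf0,
      coeff_sub, coeff_one_zero, coeff_C_zero, one_mul, pow_two] at h4
    rcases Nat.eq_zero_or_pos N with h5 | h5
    · subst h5
      rcases hs with h6 | h6
      · rcases hsn with h7 | h7
        · exact h7 h6
        · exact h7 rfl
      · rw [h6] at h4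
        simp at h4
    · rw [coeff_X_pow, if_neg (by omega)] at h4
      norm_num at h4
  · obtain ⟨N, hN⟩ : ∃ N : ℕ, -n = N := ⟨(-n).toNat, (Int.toNat_of_nonneg (by omega)).symm⟩
    have h3 := eps_inv hs n
    rw [hN] at h3
    have h2 : (toLaurent (C s * X ^ N * E) : RO ℤ) = toLaurent ((2 * (C s * X ^ N) - 1) * γ) := by
      have e2 : (toLaurent (2 : ℤ[X]) : RO ℤ) = 2 := map_ofNat _ 2
      rw [map_mul, map_mul toLaurent (2 * (C s * X ^ N) - 1), map_sub, map_mul toLaurent 2,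
        ← eps_nat, map_one, e2]
      linear_combination (eps s N) * hE - (toLaurent γ : RO ℤ) * h3
    have h4 := congrArg (fun p : ℤ[X] => p.coeff 0) (toLaurent_injective h2)
    simp only [mul_coeff_zero, coeff_C_zero, coeff_sub, coeff_one_zero] at h4
    rw [coeff_X_pow, if_neg (by omega)] at h4
    simp only [mul_zero, zero_mul, zero_sub, neg_mul, one_mul] at h4
    exact hγ0 (neg_eq_zero.mp h4.symm)

end Pool.Agent.B5.KO.H39
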