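import Mathlib

/-!
# Real Caratheodory functions

`Car g c`: `g` is the sum of the power series with the real coefficients `c` in the open unit disc
and has real part `≥ 0` there.  Main tool `Car.kip`: a linear inequality between Poisson kernels and
powers on the circle gives the same inequality for the values and Taylor coefficients of `g`.
-/

namespace Pool.Agent.B5.H39.Cara

open Metric Filter Topology Complex
open scoped ENNReal

/-- A Caratheodory function with the real Taylor coefficients `c`. -/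
structure Car (g : ℂ → ℂ) (c : ℕ → ℝ) : Prop where
  sum : ∀ z : ℂ, ‖z‖ < 1 → HasSum (fun n => (c n : ℂ) * z ^ n) (g z)
  pos : ∀ z : ℂ, ‖z‖ < 1 → 0 ≤ (g z).re

/-! ### Power series -/

theorem fps {c : ℕ → ℂ} {g : ℂ → ℂ}
    (h : ∀ z : ℂ, ‖z‖ < 1 → HasSum (fun n => c n * z ^ n) (g z)) :
    HasFPowerSeriesOnBall g (FormalMultilinearSeries.ofScalars ℂ c) 0 1 := by
  refine ⟨?_, one_pos, ?_⟩
  · refine ENNReal.le_of_forall_nnreal_lt fun r hr => ?_
    have hr1 : (r : ℝ) < 1 := by exact_mod_cast hr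
    refine FormalMultilinearSeries.le_radius_of_tendsto _ (l := 0) ?_
    have h1 := (h (r : ℂ) (by simpa using hr1)).summable.tendsto_atTop_zero.norm
    simp only [norm_zero] at h1
    refine h1.congr fun n => ?_
    rw [FormalMultilinearSeries.ofScalars_norm, norm_mul, norm_pow]
    simp
  · intro y hy
    have hy1 : ‖y‖ < 1 := by
      rw [Metric.mem_eball, edist_zero_right, ← ofReal_norm] at hy
      exact ENNReal.ofReal_lt_one.mp hy
    have h1 := h y hy1
    rw [zero_add]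
    refine h1.congr_fun fun n => ?_
    rw [FormalMultilinearSeries.ofScalars_apply_eq, smul_eq_mul]

/-- Uniqueness of the coefficients. -/
theorem uniq {c c' : ℕ → ℂ} {g : ℂ → ℂ}
    (h : ∀ z : ℂ, ‖z‖ < 1 → HasSum (fun n => c n * z ^ n) (g z))
    (h' : ∀ z : ℂ, ‖z‖ < 1 → HasSum (fun n => c' n * z ^ n) (g z)) : c = c' :=
  FormalMultilinearSeries.ofScalars_series_injective ℂ ℂ
    ((fps h).hasFPowerSeriesAt.eq_formalMultilinearSeries (fps h').hasFPowerSeriesAt)

theorem diffOn {c : ℕ → ℂ} {g : ℂ → ℂ}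
    (h : ∀ z : ℂ, ‖z‖ < 1 → HasSum (fun n => c n * z ^ n) (g z)) :
    DifferentiableOn ℂ g (ball 0 1) := by
  have h1 := (fps h).differentiableOn
  refine h1.mono fun z hz => ?_
  rw [Metric.mem_eball, edist_zero_right, ← ofReal_norm]
  exact ENNReal.ofReal_lt_one.mpr (by simpa using hz)

/-- `z ↦ g (r z)` for `0 ≤ r < 1`. -/
theorem diffCl {g : ℂ → ℂ} (hg : DifferentiableOn ℂ g (ball 0 1)) {r : ℝ} (hr0 : 0 ≤ r)
    (hr : r < 1) : DiffContOnCl ℂ (fun z => g (r * z)) (ball 0 1) := by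
  refine DifferentiableOn.diffContOnCl ?_
  rw [closure_ball (0 : ℂ) one_ne_zero]
  refine hg.comp (by fun_prop) fun z hz => ?_
  rw [mem_closedBall_zero_iff] at hz
  rw [mem_ball_zero_iff, norm_mul, Complex.norm_real, Real.norm_of_nonneg hr0]
  nlinarith [norm_nonneg z]

/-! ### Averages -/

/-- the mean of `φ` with the weight `Re g (r ζ)` -/
noncomputable def Av (g : ℂ → ℂ) (r : ℝ) (φ : ℂ → ℝ) : ℝ :=
  Real.circleAverage (fun ζ => φ ζ * (g (r * ζ)).re) 0 1

section

variable {g : ℂ → ℂ} {r : ℝ}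

theorem contW (hg : DifferentiableOn ℂ g (ball 0 1)) (hr0 : 0 ≤ r) (hr : r < 1) :
    ContinuousOn (fun ζ : ℂ => (g (r * ζ)).re) (sphere 0 |1|) := by
  have h1 := (diffCl hg hr0 hr).continuousOn
  rw [closure_ball (0 : ℂ) one_ne_zero] at h1
  exact Complex.continuous_re.comp_continuousOn (h1.mono (by
    rw [abs_one]; exact sphere_subset_closedBall))

theorem intW (hg : DifferentiableOn ℂ g (ball 0 1)) (hr0 : 0 ≤ r) (hr : r < 1) {φ : ℂ → ℝ}
    (hφ : ContinuousOn φ (sphere 0 |1|)) :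
    CircleIntegrable (fun ζ => φ ζ * (g (r * ζ)).re) 0 1 :=
  ContinuousOn.circleIntegrable' (hφ.mul (contW hg hr0 hr))

theorem Av_nonneg (hp : ∀ z : ℂ, ‖z‖ < 1 → 0 ≤ (g z).re) (hr0 : 0 ≤ r) (hr : r < 1) {φ : ℂ → ℝ}
    (hφ : ∀ ζ : ℂ, ‖ζ‖ = 1 → 0 ≤ φ ζ) : 0 ≤ Av g r φ := by
  refine Real.circleAverage_nonneg_of_nonneg fun ζ hζ => ?_
  rw [abs_one, mem_sphere_zero_iff_norm] at hζ
  refine mul_nonneg (hφ ζ hζ) (hp _ ?_)
  rw [norm_mul, hζ, Complex.norm_real, Real.norm_of_nonneg hr0, mul_one]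
  exact hr

theorem Av_add (hg : DifferentiableOn ℂ g (ball 0 1)) (hr0 : 0 ≤ r) (hr : r < 1) {φ ψ : ℂ → ℝ}
    (hφ : ContinuousOn φ (sphere 0 |1|)) (hψ : ContinuousOn ψ (sphere 0 |1|)) :
    Av g r (fun ζ => φ ζ + ψ ζ) = Av g r φ + Av g r ψ := by
  unfold Av
  rw [← Real.circleAverage_fun_add (intW hg hr0 hr hφ) (intW hg hr0 hr hψ)]
  congr 1
  funext ζ
  ring

theorem Av_sum (hg : DifferentiableOn ℂ g (ball 0 1)) (hr0 : 0 ≤ r) (hr : r < 1) {ι : Type*}
    (s : Finset ι) {φ : ι → ℂ → ℝ} (hφ : ∀ i ∈ s, ContinuousOn (φ i) (sphere 0 |1|)) :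
    Av g r (fun ζ => ∑ i ∈ s, φ i ζ) = ∑ i ∈ s, Av g r (φ i) := by
  unfold Av
  rw [← Real.circleAverage_fun_sum fun i hi => intW hg hr0 hr (hφ i hi)]
  congr 1
  funext ζ
  rw [Finset.sum_mul]

theorem Av_smul (a : ℝ) (φ : ℂ → ℝ) : Av g r (fun ζ => a * φ ζ) = a * Av g r φ := by
  unfold Av
  have h := Real.circleAverage_fun_smul (a := a) (f := fun ζ => φ ζ * (g (r * ζ)).re)
    (c := (0 : ℂ)) (R := 1)
  rw [smul_eq_mul] at h
  rw [← h]
  congr 1
  funext ζ
  rw [smul_eq_mul]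
  ring

theorem avg_re {h : ℂ → ℂ} (hh : ContinuousOn h (sphere 0 |1|)) :
    Real.circleAverage (fun ζ => (h ζ).re) 0 1 = (Real.circleAverage h 0 1).re :=
  Complex.reCLM.circleAverage_comp_comm (ContinuousOn.circleIntegrable' hh)

/-- Poisson's formula. -/
theorem Av_poisson (hg : DifferentiableOn ℂ g (ball 0 1)) (hr0 : 0 ≤ r) (hr : r < 1) {w : ℂ}
    (hw : ‖w‖ < 1) : Av g r (poissonKernel 0 w) = (g (r * w)).re := by
  have h1 := diffCl hg hr0 hr
  have h2 := h1.circleAverage_poissonKernel_smul (w := w) (by simpa using hw)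
  have hc := h1.continuousOn
  rw [closure_ball (0 : ℂ) one_ne_zero] at hc
  have h3 : ContinuousOn (poissonKernel 0 w • fun z : ℂ => g (r * z)) (sphere 0 |1|) := by
    refine ContinuousOn.smul ?_ (hc.mono (by rw [abs_one]; exact sphere_subset_closedBall))
    rw [poissonKernel_eq_re_herglotzRieszKernel]
    exact Complex.continuous_re.comp_continuousOn
      (continuousOn_herglotzRieszKernel_sphere (by simpa using hw))
  have h4 := avg_re h3
  rw [h2] at h4
  rw [← h4]
  unfold Av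
  congr 1
  funext ζ
  simp

/-! ### Coefficients -/

theorem shift {c : ℕ → ℂ} {g : ℂ → ℂ}
    (h : ∀ z : ℂ, ‖z‖ < 1 → HasSum (fun n => c n * z ^ n) (g z)) (n : ℕ) :
    ∃ H : ℂ → ℂ, (∀ z : ℂ, ‖z‖ < 1 → HasSum (fun k => c (k + n) * z ^ k) (H z)) ∧
      ∀ z : ℂ, ‖z‖ < 1 → g z = ∑ k ∈ Finset.range n, c k * z ^ k + z ^ n * H z := by
  have hs : ∀ z : ℂ, ‖z‖ < 1 → Summable (fun k => c (k + n) * z ^ k) := by
    intro z hz
    by_cases h0 : z = 0
    · subst h0
      refine summable_of_ne_finset_zero (s := {0}) fun k hk => ?_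
      rw [Finset.mem_singleton] at hk
      rw [zero_pow hk, mul_zero]
    · have h1 := ((summable_nat_add_iff n).mpr (h z hz).summable).mul_right ((z ^ n)⁻¹)
      refine h1.congr fun k => ?_
      rw [pow_add]
      field_simp
  refine ⟨fun z => ∑' k, c (k + n) * z ^ k, fun z hz => (hs z hz).hasSum, fun z hz => ?_⟩
  have h1 := (h z hz).summable.sum_add_tsum_nat_add n
  rw [(h z hz).tsum_eq] at h1
  rw [← h1, ← tsum_mul_left]
  congr 1
  refine tsum_congr fun k => ?_
  rw [pow_add]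
  ring

theorem val0 {c : ℕ → ℂ} {g : ℂ → ℂ}
    (h : ∀ z : ℂ, ‖z‖ < 1 → HasSum (fun n => c n * z ^ n) (g z)) : g 0 = c 0 := by
  have h1 := h 0 (by simp)
  refine h1.unique ?_
  have h2 := hasSum_ite_eq 0 (c 0)
  refine h2.congr_fun fun n => ?_
  by_cases hn : n = 0
  · subst hn; simp
  · simp [hn]

theorem avg_pow {n : ℕ} (hn : 1 ≤ n) :
    Real.circleAverage (fun ζ : ℂ => (ζ ^ n).re) 0 1 = 0 := by
  have h1 : DiffContOnCl ℂ (fun z : ℂ => z ^ n) (ball 0 |1|) := by
    refine DifferentiableOn.diffContOnCl ?_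
    fun_prop
  have h2 := h1.circleAverage
  rw [avg_re (by fun_prop), h2, zero_pow (by omega)]
  simp

/-- The moments. -/
theorem Av_pow {c : ℕ → ℝ} (h : ∀ z : ℂ, ‖z‖ < 1 → HasSum (fun n => (c n : ℂ) * z ^ n) (g z))
    (hr0 : 0 ≤ r) (hr : r < 1) {n : ℕ} (hn : 1 ≤ n) :
    Av g r (fun ζ => (ζ ^ n).re) = c n * r ^ n / 2 := by
  have hg := diffOn (c := fun n => (c n : ℂ)) h
  obtain ⟨H, hH, hgH⟩ := shift (c := fun n => (c n : ℂ)) h n
  have hHd := diffOn hH
  have hcl := diffCl hg hr0 hr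
  have hclH := diffCl hHd hr0 hr
  have hsub : sphere (0 : ℂ) |1| ⊆ closedBall 0 1 := by
    rw [abs_one]; exact sphere_subset_closedBall
  have hc := hcl.continuousOn
  rw [closure_ball (0 : ℂ) one_ne_zero] at hc
  have hcH := hclH.continuousOn
  rw [closure_ball (0 : ℂ) one_ne_zero] at hcH
  -- first part
  have a1 : Real.circleAverage (fun ζ : ℂ => (ζ ^ n * g (r * ζ)).re) 0 1 = 0 := by
    have h1 : DiffContOnCl ℂ (fun z : ℂ => z ^ n * g (r * z)) (ball 0 |1|) := by
      rw [abs_one]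
      have h2 : DiffContOnCl ℂ (fun z : ℂ => z ^ n) (ball 0 1) :=
        DifferentiableOn.diffContOnCl (by fun_prop)
      exact h2.smul hcl
    have h2 := h1.circleAverage
    rw [avg_re (h := fun ζ : ℂ => ζ ^ n * g (r * ζ))
      (((continuous_pow n).continuousOn).mul (hc.mono hsub)), h2, zero_pow (by omega)]
    simp
  -- second part
  have a2 : Real.circleAverage (fun ζ : ℂ => ((starRingEnd ℂ) (ζ ^ n) * g (r * ζ)).re) 0 1 =
      c n * r ^ n := by
    have e : Real.circleAverage (fun ζ : ℂ => ((starRingEnd ℂ) (ζ ^ n) * g (r * ζ)).re) 0 1 =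
        Real.circleAverage (fun ζ : ℂ => ∑ k ∈ Finset.range n, (c k * r ^ k) • (ζ ^ (n - k)).re +
          r ^ n • (H (r * ζ)).re) 0 1 := by
      refine Real.circleAverage_congr_sphere fun ζ hζ => ?_
      rw [abs_one, mem_sphere_zero_iff_norm] at hζ
      have hz : ‖(r : ℂ) * ζ‖ < 1 := by
        rw [norm_mul, hζ, Complex.norm_real, Real.norm_of_nonneg hr0, mul_one]
        exact hr
      have hcz : (starRingEnd ℂ) ζ * ζ = 1 := by
        rw [← Complex.normSq_eq_conj_mul_self, Complex.normSq_eq_norm_sq, hζ]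
        simp
      have hcn : ∀ m : ℕ, (starRingEnd ℂ) (ζ ^ m) * ζ ^ m = 1 := by
        intro m
        rw [map_pow, ← mul_pow, hcz, one_pow]
      show ((starRingEnd ℂ) (ζ ^ n) * g (r * ζ)).re = _
      rw [hgH _ hz, mul_add, Finset.mul_sum, Complex.add_re, Complex.re_sum]
      congr 1
      · refine Finset.sum_congr rfl fun k hk => ?_
        have hk' : k ≤ n := (Finset.mem_range.mp hk).le
        have e1 : (starRingEnd ℂ) (ζ ^ n) * ((c k : ℂ) * (r * ζ) ^ k) =
            ((c k * r ^ k : ℝ) : ℂ) * (starRingEnd ℂ) (ζ ^ (n - k)) := by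
          have e2 : ζ ^ n = ζ ^ (n - k) * ζ ^ k := by rw [← pow_add, Nat.sub_add_cancel hk']
          rw [e2, map_mul, mul_pow]
          push_cast
          linear_combination ((c k : ℂ) * r ^ k * (starRingEnd ℂ) (ζ ^ (n - k))) * hcn k
        rw [e1, Complex.re_ofReal_mul, Complex.conj_re, smul_eq_mul]
      · have e1 : (starRingEnd ℂ) (ζ ^ n) * ((r * ζ) ^ n * H (r * ζ)) =
            ((r ^ n : ℝ) : ℂ) * H (r * ζ) := by
          rw [mul_pow]
          push_cast
          linear_combination ((r : ℂ) ^ n * H (r * ζ)) * hcn n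
        rw [e1, Complex.re_ofReal_mul, smul_eq_mul]
    rw [e, Real.circleAverage_fun_add, Real.circleAverage_fun_sum]
    · have e3 : Real.circleAverage (fun ζ : ℂ => r ^ n • (H (r * ζ)).re) 0 1 = c n * r ^ n := by
        rw [Real.circleAverage_fun_smul]
        have h2 := avg_re (hcH.mono hsub)
        have h3 : DiffContOnCl ℂ (fun z : ℂ => H (r * z)) (ball 0 |1|) := by
          rw [abs_one]; exact hclH
        rw [h2, h3.circleAverage, mul_zero, val0 hH, zero_add, smul_eq_mul, Complex.ofReal_re]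
        ring
      rw [e3, Finset.sum_eq_zero, zero_add]
      intro k hk
      rw [Real.circleAverage_fun_smul, avg_pow (by have := Finset.mem_range.mp hk; omega),
        smul_zero]
    · intro k _
      exact ContinuousOn.circleIntegrable' (by fun_prop)
    · exact ContinuousOn.circleIntegrable' (by fun_prop)
    · refine ContinuousOn.circleIntegrable' ?_
      have hh : ContinuousOn (fun ζ : ℂ => (H (r * ζ)).re) (sphere 0 |1|) :=
        Complex.continuous_re.comp_continuousOn (hcH.mono hsub)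
      exact hh.const_smul (r ^ n)
  have e4 : Av g r (fun ζ => (ζ ^ n).re) = Real.circleAverage (fun ζ : ℂ =>
      (1 / 2 : ℝ) • (ζ ^ n * g (r * ζ)).re + (1 / 2 : ℝ) •
        ((starRingEnd ℂ) (ζ ^ n) * g (r * ζ)).re) 0 1 := by
    unfold Av
    congr 1
    funext ζ
    rw [Complex.mul_re, Complex.mul_re, Complex.conj_re, Complex.conj_im, smul_eq_mul, smul_eq_mul]
    ring
  rw [e4, Real.circleAverage_fun_add, Real.circleAverage_fun_smul, Real.circleAverage_fun_smul,
    a1, a2, smul_eq_mul, smul_eq_mul]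
  · ring
  · refine ContinuousOn.circleIntegrable' ?_
    have hh : ContinuousOn (fun ζ : ℂ => (ζ ^ n * g (r * ζ)).re) (sphere 0 |1|) :=
      Complex.continuous_re.comp_continuousOn
        (((continuous_pow n).continuousOn).mul (hc.mono hsub))
    exact hh.const_smul (1 / 2 : ℝ)
  · refine ContinuousOn.circleIntegrable' ?_
    have hh : ContinuousOn (fun ζ : ℂ => ((starRingEnd ℂ) (ζ ^ n) * g (r * ζ)).re)
        (sphere 0 |1|) :=
      Complex.continuous_re.comp_continuousOn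
        ((Complex.continuous_conj.comp (continuous_pow n)).continuousOn.mul (hc.mono hsub))
    exact hh.const_smul (1 / 2 : ℝ)

end

/-- **The kernel inequality principle.** -/
theorem Car.kip {g : ℂ → ℂ} {c : ℕ → ℝ} (hg : Car g c) {ι : Type*} (s : Finset ι) (α : ι → ℝ)
    (x : ι → ℝ) (hx : ∀ i ∈ s, |x i| < 1) (N : Finset ℕ) (hN : ∀ n ∈ N, 1 ≤ n) (β : ℕ → ℝ)
    (γ : ℝ) (hpos : ∀ ζ : ℂ, ‖ζ‖ = 1 → 0 ≤ ∑ i ∈ s, α i * poissonKernel 0 (x i) ζ +
      ∑ n ∈ N, β n * (ζ ^ n).re + γ) :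
    0 ≤ ∑ i ∈ s, α i * (g (x i)).re + ∑ n ∈ N, β n * (c n / 2) + γ * c 0 := by
  have hd := diffOn (c := fun n => (c n : ℂ)) hg.sum
  have hcont : ∀ i ∈ s, ContinuousOn (poissonKernel 0 (x i : ℂ)) (sphere 0 |1|) := by
    intro i hi
    rw [poissonKernel_eq_re_herglotzRieszKernel]
    exact Complex.continuous_re.comp_continuousOn
      (continuousOn_herglotzRieszKernel_sphere (by simpa using hx i hi))
  -- the inequality for `r < 1`
  have hr : ∀ r : ℝ, 0 ≤ r → r < 1 →
      0 ≤ ∑ i ∈ s, α i * (g (r * x i)).re + ∑ n ∈ N, β n * (c n * r ^ n / 2) + γ * c 0 := by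
    intro r hr0 hr1
    have h1 := Av_nonneg hg.pos hr0 hr1 hpos
    have c1 : ContinuousOn (fun ζ : ℂ => ∑ i ∈ s, α i * poissonKernel 0 (x i) ζ)
        (sphere 0 |1|) := continuousOn_finsetSum _ fun i hi => continuousOn_const.mul (hcont i hi)
    have c2 : ContinuousOn (fun ζ : ℂ => ∑ n ∈ N, β n * (ζ ^ n).re) (sphere 0 |1|) := by
      fun_prop
    have h2 : Av g r (fun ζ => ∑ i ∈ s, α i * poissonKernel 0 (x i) ζ +
        ∑ n ∈ N, β n * (ζ ^ n).re + γ) = ∑ i ∈ s, α i * (g (r * x i)).re +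
          ∑ n ∈ N, β n * (c n * r ^ n / 2) + γ * c 0 := by
      have c12 : ContinuousOn (fun ζ : ℂ => ∑ i ∈ s, α i * poissonKernel 0 (x i) ζ +
          ∑ n ∈ N, β n * (ζ ^ n).re) (sphere 0 |1|) := c1.add c2
      rw [Av_add hd hr0 hr1 c12 continuousOn_const, Av_add hd hr0 hr1 c1 c2,
        Av_sum hd hr0 hr1 s (φ := fun i ζ => α i * poissonKernel 0 (x i) ζ)
          fun i hi => continuousOn_const.mul (hcont i hi),
        Av_sum hd hr0 hr1 N (φ := fun n ζ => β n * (ζ ^ n).re) fun n _ => by fun_prop]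
      congr 1
      · congr 1
        · refine Finset.sum_congr rfl fun i hi => ?_
          rw [Av_smul, Av_poisson hd hr0 hr1 (by simpa using hx i hi)]
        · refine Finset.sum_congr rfl fun n hn => ?_
          rw [Av_smul, Av_pow hg.sum hr0 hr1 (hN n hn)]
      · have e := Av_smul (g := g) (r := r) γ (fun _ => 1)
        rw [mul_one] at e
        rw [e]
        have e2 := Av_poisson (w := 0) hd hr0 hr1 (by simp)
        rw [mul_zero, val0 (c := fun n => (c n : ℂ)) hg.sum, Complex.ofReal_re] at e2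
        rw [← e2]
        congr 1
        unfold Av
        refine Real.circleAverage_congr_sphere fun ζ hζ => ?_
        rw [abs_one, mem_sphere_zero_iff_norm] at hζ
        simp [poissonKernel, hζ]
    rw [← h2]
    exact h1
  -- the limit
  have hlim : Tendsto (fun r : ℝ => ∑ i ∈ s, α i * (g (r * x i)).re +
      ∑ n ∈ N, β n * (c n * r ^ n / 2) + γ * c 0) (𝓝[<] 1)
      (𝓝 (∑ i ∈ s, α i * (g (x i)).re + ∑ n ∈ N, β n * (c n / 2) + γ * c 0)) := by
    refine Tendsto.mono_left ?_ nhdsWithin_le_nhds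
    refine Tendsto.add_const _ (Tendsto.add ?_ ?_)
    · refine tendsto_finsetSum _ fun i hi => Tendsto.const_mul _ ?_
      have h1 : ContinuousAt g (x i : ℂ) :=
        (hd.differentiableAt (isOpen_ball.mem_nhds (by simpa using hx i hi))).continuousAt
      have h2 : Tendsto (fun r : ℝ => (r : ℂ) * (x i : ℂ)) (𝓝 1) (𝓝 (x i : ℂ)) := by
        have h3 : Continuous fun r : ℝ => (r : ℂ) * (x i : ℂ) := by fun_prop
        have h4 := h3.tendsto 1
        simpa using h4
      exact (Complex.continuous_re.tendsto _).comp (h1.tendsto.comp h2)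
    · refine tendsto_finsetSum _ fun n _ => Tendsto.const_mul _ ?_
      have h3 : Continuous fun r : ℝ => c n * r ^ n / 2 := by fun_prop
      have h4 := h3.tendsto 1
      simpa using h4
  refine ge_of_tendsto hlim ?_
  have h5 : ∀ᶠ r : ℝ in 𝓝[<] 1, 0 ≤ r := by
    refine Filter.Eventually.filter_mono nhdsWithin_le_nhds ?_
    filter_upwards [lt_mem_nhds (show (0 : ℝ) < 1 by norm_num)] with r hr
    exact hr.le
  filter_upwards [h5, self_mem_nhdsWithin] with r hr0 hr1
  exact hr r hr0 hr1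

end Pool.Agent.B5.H39.Cara
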