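import Pool.Agent.Lib.MP_b5021c_nt.KO.H39.Cara

/-!
# Real Caratheodory functions: inequalities (HAR), (CVX), (TOE)
-/

namespace Pool.Agent.B5.H39.Cara

open Metric Filter Topology Complex

theorem pk_eq {x : ℝ} {ζ : ℂ} (hζ : ‖ζ‖ = 1) :
    poissonKernel 0 (x : ℂ) ζ = (1 - x ^ 2) / (1 - 2 * x * ζ.re + x ^ 2) := by
  have h1 : ζ.re ^ 2 + ζ.im ^ 2 = 1 := by
    have := Complex.sq_norm ζ
    rw [hζ, Complex.normSq_apply] at this
    nlinarith
  have h2 : ‖ζ - (x : ℂ)‖ ^ 2 = 1 - 2 * x * ζ.re + x ^ 2 := by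
    rw [Complex.sq_norm, Complex.normSq_apply]
    simp only [Complex.sub_re, Complex.sub_im, Complex.ofReal_re, Complex.ofReal_im, sub_zero]
    nlinarith
  simp only [poissonKernel, sub_zero]
  rw [h2, hζ, Complex.norm_real, Real.norm_eq_abs, sq_abs]
  norm_num

/-- The denominator of the kernel. -/
theorem pk_pos {x : ℝ} (hx : |x| < 1) {t : ℝ} (ht : |t| ≤ 1) : 0 < 1 - 2 * x * t + x ^ 2 := by
  have h1 := abs_lt.mp hx
  have h2 := abs_le.mp ht
  have h3 : 0 < (1 - x) ^ 2 := by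
    have : 0 < 1 - x := by linarith
    positivity
  have h4 : 0 < (1 + x) ^ 2 := by
    have : 0 < 1 + x := by linarith
    positivity
  by_cases h : 0 ≤ x
  · nlinarith [mul_nonneg h (sub_nonneg.mpr h2.2)]
  · push Not at h
    nlinarith [mul_nonneg (neg_nonneg.mpr h.le) (neg_le_iff_add_nonneg.mp h2.1)]

theorem re_le {ζ : ℂ} (hζ : ‖ζ‖ = 1) : |ζ.re| ≤ 1 := by
  rw [← hζ]; exact Complex.abs_re_le_norm ζ

variable {g : ℂ → ℂ} {c : ℕ → ℝ}

theorem Car.diff (hg : Car g c) : DifferentiableOn ℂ g (ball 0 1) :=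
  diffOn (c := fun n => (c n : ℂ)) hg.sum

theorem Car.zero (hg : Car g c) : g 0 = c 0 := val0 (c := fun n => (c n : ℂ)) hg.sum

/-- The values at real points are real. -/
theorem Car.real (hg : Car g c) {x : ℝ} (hx : |x| < 1) : ((g x).re : ℂ) = g x := by
  have h1 := hg.sum (x : ℂ) (by simpa using hx)
  have h2 : (starRingEnd ℂ) (g x) = g x := by
    refine ((Complex.hasSum_conj'.mpr h1).congr_fun fun n => ?_).unique h1
    simp
  exact Complex.conj_eq_iff_re.mp h2

/-- Two kernels and a constant. -/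
theorem Car.kip2 (hg : Car g c) {x y A B γ : ℝ} (hx : |x| < 1) (hy : |y| < 1)
    (h : ∀ t : ℝ, |t| ≤ 1 → 0 ≤ A * ((1 - x ^ 2) / (1 - 2 * x * t + x ^ 2)) +
      B * ((1 - y ^ 2) / (1 - 2 * y * t + y ^ 2)) + γ) :
    0 ≤ A * (g x).re + B * (g y).re + γ * c 0 := by
  have h1 := hg.kip (Finset.univ : Finset (Fin 2)) ![A, B] ![x, y] (by
    intro i _; fin_cases i
    · exact hx
    · exact hy) ∅ (by simp) (fun _ => 0) γ (by
      intro ζ hζ
      rw [Fin.sum_univ_two, Finset.sum_empty, add_zero]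
      have := h ζ.re (re_le hζ)
      simp only [Matrix.cons_val_zero, Matrix.cons_val_one]
      rw [pk_eq hζ, pk_eq hζ]
      exact this)
  rw [Fin.sum_univ_two, Finset.sum_empty, add_zero] at h1
  simpa using h1

/-- Two kernels, the first moment and a constant. -/
theorem Car.kip3 (hg : Car g c) {x y A B β γ : ℝ} (hx : |x| < 1) (hy : |y| < 1)
    (h : ∀ t : ℝ, |t| ≤ 1 → 0 ≤ A * ((1 - x ^ 2) / (1 - 2 * x * t + x ^ 2)) +
      B * ((1 - y ^ 2) / (1 - 2 * y * t + y ^ 2)) + β * t + γ) :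
    0 ≤ A * (g x).re + B * (g y).re + β * (c 1 / 2) + γ * c 0 := by
  have h1 := hg.kip (Finset.univ : Finset (Fin 2)) ![A, B] ![x, y] (by
    intro i _; fin_cases i
    · exact hx
    · exact hy) {1} (by simp) (fun _ => β) γ (by
      intro ζ hζ
      rw [Fin.sum_univ_two, Finset.sum_singleton, pow_one]
      have := h ζ.re (re_le hζ)
      simp only [Matrix.cons_val_zero, Matrix.cons_val_one]
      rw [pk_eq hζ, pk_eq hζ]
      exact this)
  rw [Fin.sum_univ_two, Finset.sum_singleton] at h1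
  simpa using h1

theorem frac_le {a b p q : ℝ} (hb : 0 < b) (hq : 0 < q) (h : a * q ≤ p * b) : a / b ≤ p / q :=
  (div_le_div_iff₀ hb hq).mpr h

/-- (HAR) upper estimate: `g(y) ≤ g(x) h(y)/h(x)`, `h(x) = (1+x)/(1-x)`. -/
theorem Car.har (hg : Car g c) {x y : ℝ} (hx : 0 ≤ x) (hxy : x ≤ y) (hy : y < 1) :
    (g y).re * ((1 + x) * (1 - y)) ≤ (g x).re * ((1 - x) * (1 + y)) := by
  have h1 := hg.kip2 (x := x) (y := y) (A := (1 - x) * (1 + y)) (B := -((1 + x) * (1 - y)))
    (γ := 0) (abs_lt.mpr ⟨by linarith, by linarith⟩) (abs_lt.mpr ⟨by linarith, hy⟩) (by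
      intro t ht
      have d1 := pk_pos (x := x) (abs_lt.mpr ⟨by linarith, by linarith⟩) ht
      have d2 := pk_pos (x := y) (abs_lt.mpr ⟨by linarith, hy⟩) ht
      have ht2 := abs_le.mp ht
      have h2 : (1 + x) * (1 - y) * (1 - y ^ 2) / (1 - 2 * y * t + y ^ 2) ≤
          (1 - x) * (1 + y) * (1 - x ^ 2) / (1 - 2 * x * t + x ^ 2) := by
        refine frac_le d2 d1 ?_
        have h3 : 0 ≤ (1 + x) * (1 + y) * (2 * (1 - t)) * ((y - x) * (1 - x * y)) := by
          have : 0 ≤ 1 - x * y := by nlinarith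
          have : 0 ≤ 1 - t := by linarith
          have : 0 ≤ y - x := by linarith
          have : 0 ≤ 1 + x := by linarith
          have : 0 ≤ 1 + y := by linarith
          positivity
        nlinarith [h3]
      have e1 : (1 - x) * (1 + y) * ((1 - x ^ 2) / (1 - 2 * x * t + x ^ 2)) =
          (1 - x) * (1 + y) * (1 - x ^ 2) / (1 - 2 * x * t + x ^ 2) := by ring
      have e2 : -((1 + x) * (1 - y)) * ((1 - y ^ 2) / (1 - 2 * y * t + y ^ 2)) =
          -((1 + x) * (1 - y) * (1 - y ^ 2) / (1 - 2 * y * t + y ^ 2)) := by ring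
      rw [e1, e2]
      linarith)
  nlinarith

/-- (HAR) lower estimate: `g(y) ≥ g(x) h(x)/h(y)`. -/
theorem Car.har' (hg : Car g c) {x y : ℝ} (hx : 0 ≤ x) (hxy : x ≤ y) (hy : y < 1) :
    (g x).re * ((1 + x) * (1 - y)) ≤ (g y).re * ((1 - x) * (1 + y)) := by
  have h1 := hg.kip2 (x := x) (y := y) (A := -((1 + x) * (1 - y))) (B := (1 - x) * (1 + y))
    (γ := 0) (abs_lt.mpr ⟨by linarith, by linarith⟩) (abs_lt.mpr ⟨by linarith, hy⟩) (by
      intro t ht
      have d1 := pk_pos (x := x) (abs_lt.mpr ⟨by linarith, by linarith⟩) ht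
      have d2 := pk_pos (x := y) (abs_lt.mpr ⟨by linarith, hy⟩) ht
      have ht2 := abs_le.mp ht
      have h2 : (1 + x) * (1 - y) * (1 - x ^ 2) / (1 - 2 * x * t + x ^ 2) ≤
          (1 - x) * (1 + y) * (1 - y ^ 2) / (1 - 2 * y * t + y ^ 2) := by
        refine frac_le d1 d2 ?_
        have h3 : 0 ≤ (1 - x) * (1 - y) * (2 * (1 + t)) * ((y - x) * (1 - x * y)) := by
          have : 0 ≤ 1 - x * y := by nlinarith
          have : 0 ≤ 1 + t := by linarith
          have : 0 ≤ y - x := by linarith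
          have : 0 ≤ 1 - x := by linarith
          have : 0 ≤ 1 - y := by linarith
          positivity
        nlinarith [h3]
      have e1 : -((1 + x) * (1 - y)) * ((1 - x ^ 2) / (1 - 2 * x * t + x ^ 2)) =
          -((1 + x) * (1 - y) * (1 - x ^ 2) / (1 - 2 * x * t + x ^ 2)) := by ring
      have e2 : (1 - x) * (1 + y) * ((1 - y ^ 2) / (1 - 2 * y * t + y ^ 2)) =
          (1 - x) * (1 + y) * (1 - y ^ 2) / (1 - 2 * y * t + y ^ 2) := by ring
      rw [e1, e2]
      linarith)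
  nlinarith

/-- The chord inequality. -/
theorem Car.chd (hg : Car g c) {b x : ℝ} (hb : 0 < b) (hbx : b ≤ x) (hx : x < 1) :
    b * (1 - x ^ 2) * (g x).re + (x - b) * (1 - b * x) * c 0 ≤ x * (1 - b ^ 2) * (g b).re := by
  have h1 := hg.kip2 (x := b) (y := x) (A := x * (1 - b ^ 2)) (B := -(b * (1 - x ^ 2)))
    (γ := -((x - b) * (1 - b * x)))
    (abs_lt.mpr ⟨by linarith, by linarith⟩) (abs_lt.mpr ⟨by linarith, hx⟩) (by
      intro t ht
      have d1 := pk_pos (x := b) (abs_lt.mpr ⟨by linarith, by linarith⟩) ht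
      have d2 := pk_pos (x := x) (abs_lt.mpr ⟨by linarith, hx⟩) ht
      have ht2 := abs_le.mp ht
      have e : x * (1 - b ^ 2) * ((1 - b ^ 2) / (1 - 2 * b * t + b ^ 2)) +
          -(b * (1 - x ^ 2)) * ((1 - x ^ 2) / (1 - 2 * x * t + x ^ 2)) +
          -((x - b) * (1 - b * x)) = 4 * b * x * ((x - b) * (1 - b * x)) * (1 - t ^ 2) /
            ((1 - 2 * b * t + b ^ 2) * (1 - 2 * x * t + x ^ 2)) := by
        rw [eq_div_iff (mul_pos d1 d2).ne']
        have n1 := d1.ne'
        have n2 := d2.ne'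
        generalize hE : 1 - 2 * b * t + b ^ 2 = E at *
        generalize hF : 1 - 2 * x * t + x ^ 2 = F at *
        field_simp
        subst hE hF
        ring
      rw [e]
      have : 0 ≤ 1 - b * x := by nlinarith
      have : 0 ≤ x - b := by linarith
      have : 0 ≤ 1 - t ^ 2 := by nlinarith
      have : 0 ≤ x := by linarith
      positivity)
  nlinarith

/-- (CVX) convexity. -/
theorem Car.cvx (hg : Car g c) {b x : ℝ} (hb : 0 < b) (hbx : b ≤ x) (hx : x < 1) :
    b * (1 - x ^ 2) * c 0 * (g b).re ≤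
      (g x).re * (x * (1 - b ^ 2) * c 0 - (x - b) * (1 - b * x) * (g b).re) := by
  have h0 : 0 ≤ c 0 := by
    have := hg.pos 0 (by simp)
    rwa [hg.zero, Complex.ofReal_re] at this
  have hT0 : 0 ≤ (g b).re := hg.pos _ (by simpa using abs_lt.mpr ⟨by linarith, by linarith⟩)
  have hH := hg.har (x := 0) (y := b) le_rfl hb.le (by linarith)
  have hH0 : (g ((0 : ℝ) : ℂ)).re = c 0 := by
    rw [Complex.ofReal_zero, hg.zero, Complex.ofReal_re]
  rw [hH0] at hH
  set T := (g b).re with hT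
  have hx0 : 0 < x := by linarith
  have hbx1 : 0 ≤ 1 - b * x := by nlinarith
  have hxb : 0 ≤ x - b := by linarith
  rcases h0.eq_or_lt with h0' | h0'
  · rw [← h0'] at hH ⊢
    have hT1 : T = 0 := by
      refine le_antisymm ?_ hT0
      have : T * (1 - b) ≤ 0 := by linarith
      by_contra hcon
      push Not at hcon
      have : 0 < T * (1 - b) := mul_pos hcon (by linarith)
      linarith
    rw [hT1]
    simp
  · have hR : 0 < x * (1 - b ^ 2) * c 0 - (x - b) * (1 - b * x) * T := by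
      have h1 : 0 < (1 + b) * (b * (1 - x) ^ 2) * c 0 := by
        have : 0 < 1 - x := by linarith
        positivity
      have h2 : (x - b) * (1 - b * x) * (T * (1 - b)) ≤ (x - b) * (1 - b * x) * (c 0 * (1 + b)) :=
        mul_le_mul_of_nonneg_left (by linarith) (mul_nonneg hxb hbx1)
      have h3 : 0 < (1 - b) * (x * (1 - b ^ 2) * c 0 - (x - b) * (1 - b * x) * T) := by
        nlinarith
      exact (mul_pos_iff_of_pos_left (by linarith)).mp h3
    set R := x * (1 - b ^ 2) * c 0 - (x - b) * (1 - b * x) * T with hRd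
    have h1 := hg.kip2 (x := b) (y := x) (A := -((1 - x ^ 2) * x * (1 - b ^ 2) * b * c 0 ^ 2))
      (B := R ^ 2) (γ := (1 - x ^ 2) * ((x - b) * (1 - b * x)) * b * T ^ 2)
      (abs_lt.mpr ⟨by linarith, by linarith⟩) (abs_lt.mpr ⟨by linarith, hx⟩) (by
        intro t ht
        have d1 := pk_pos (x := b) (abs_lt.mpr ⟨by linarith, by linarith⟩) ht
        have d2 := pk_pos (x := x) (abs_lt.mpr ⟨by linarith, hx⟩) ht
        have e : -((1 - x ^ 2) * x * (1 - b ^ 2) * b * c 0 ^ 2) *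
              ((1 - b ^ 2) / (1 - 2 * b * t + b ^ 2)) +
            R ^ 2 * ((1 - x ^ 2) / (1 - 2 * x * t + x ^ 2)) +
            (1 - x ^ 2) * ((x - b) * (1 - b * x)) * b * T ^ 2 =
            (1 - x ^ 2) * ((x - b) * (1 - b * x)) * x *
              ((1 - b ^ 2) * c 0 - T * (1 - 2 * b * t + b ^ 2)) ^ 2 /
              ((1 - 2 * b * t + b ^ 2) * (1 - 2 * x * t + x ^ 2)) := by
          rw [eq_div_iff (mul_pos d1 d2).ne', hRd]
          have n1 := d1.ne'
          have n2 := d2.ne'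
          generalize hE : 1 - 2 * b * t + b ^ 2 = E at *
          generalize hF : 1 - 2 * x * t + x ^ 2 = F at *
          field_simp
          subst hE hF
          ring
        rw [e]
        have : 0 ≤ 1 - x ^ 2 := by nlinarith
        positivity)
    have h2 : 0 ≤ R * (R * (g x).re - b * (1 - x ^ 2) * c 0 * T) := by
      have e : R * (R * (g x).re - b * (1 - x ^ 2) * c 0 * T) =
          -((1 - x ^ 2) * x * (1 - b ^ 2) * b * c 0 ^ 2) * T + R ^ 2 * (g x).re +
            (1 - x ^ 2) * ((x - b) * (1 - b * x)) * b * T ^ 2 * c 0 := by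
        rw [hRd]; ring
      rw [e]; exact h1
    have h3 := nonneg_of_mul_nonneg_right h2 hR
    linarith

end Pool.Agent.B5.H39.Cara
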