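import Pool.Agent.Lib.MP_b5021c_nt.KO.H39.Cara2

/-!
# Real Caratheodory functions: coefficients (TOE)
-/

namespace Pool.Agent.B5.H39.Cara

open Metric Filter Topology Complex

variable {g : ℂ → ℂ} {c : ℕ → ℝ}

/-- Only moments. -/
theorem Car.kipm (hg : Car g c) (N : Finset ℕ) (hN : ∀ n ∈ N, 1 ≤ n) (β : ℕ → ℝ) (γ : ℝ)
    (h : ∀ ζ : ℂ, ‖ζ‖ = 1 → 0 ≤ ∑ n ∈ N, β n * (ζ ^ n).re + γ) :
    0 ≤ ∑ n ∈ N, β n * (c n / 2) + γ * c 0 := by
  have h1 := hg.kip (∅ : Finset (Fin 1)) (fun _ => 0) (fun _ => 0) (by simp) N hN β γ (by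
    intro ζ hζ
    rw [Finset.sum_empty, zero_add]
    exact h ζ hζ)
  rwa [Finset.sum_empty, zero_add] at h1

theorem re_mul_conj_pow {ζ : ℂ} (hζ : ‖ζ‖ = 1) (i l : ℕ) :
    (ζ ^ (i + l) * (starRingEnd ℂ) (ζ ^ i)).re = (ζ ^ l).re := by
  have h1 : ζ ^ i * (starRingEnd ℂ) (ζ ^ i) = 1 := by
    rw [Complex.mul_conj, Complex.normSq_eq_norm_sq, norm_pow, hζ]
    simp
  have h2 : ζ ^ (i + l) * (starRingEnd ℂ) (ζ ^ i) = ζ ^ l := by
    rw [pow_add]
    linear_combination (ζ ^ l) * h1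
  rw [h2]

/-- (TOE) the quadratic form of three moments. -/
theorem Car.toe (hg : Car g c) {i l : ℕ} (hi : 1 ≤ i) (hl : 1 ≤ l) (x y z : ℝ) :
    0 ≤ (x ^ 2 + y ^ 2 + z ^ 2) * c 0 + x * y * c i + y * z * c l + x * z * c (i + l) := by
  have key : ∀ ζ : ℂ, ‖ζ‖ = 1 → 0 ≤ 2 * x * y * (ζ ^ i).re + 2 * y * z * (ζ ^ l).re +
      2 * x * z * (ζ ^ (i + l)).re + (x ^ 2 + y ^ 2 + z ^ 2) := by
    intro ζ hζ
    have h1 : 0 ≤ Complex.normSq ((x : ℂ) + y * ζ ^ i + z * ζ ^ (i + l)) := Complex.normSq_nonneg _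
    have h2 : Complex.normSq ((x : ℂ) + y * ζ ^ i + z * ζ ^ (i + l)) =
        2 * x * y * (ζ ^ i).re + 2 * y * z * (ζ ^ l).re +
          2 * x * z * (ζ ^ (i + l)).re + (x ^ 2 + y ^ 2 + z ^ 2) := by
      have e1 := re_mul_conj_pow hζ i l
      have n1 : Complex.normSq (ζ ^ i) = 1 := by
        rw [Complex.normSq_eq_norm_sq, norm_pow, hζ]; simp
      have n2 : Complex.normSq (ζ ^ (i + l)) = 1 := by
        rw [Complex.normSq_eq_norm_sq, norm_pow, hζ]; simp
      rw [Complex.normSq_apply] at n1 n2 ⊢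
      rw [Complex.mul_re, Complex.conj_re, Complex.conj_im] at e1
      simp only [Complex.add_re, Complex.add_im, Complex.mul_re, Complex.mul_im,
        Complex.ofReal_re, Complex.ofReal_im, zero_mul, sub_zero, add_zero, zero_add]
      linear_combination (y ^ 2) * n1 + (z ^ 2) * n2 + (2 * y * z) * e1
    rw [← h2]; exact h1
  have hil : i ≠ i + l := by omega
  have hll : l ≠ i + l := by omega
  by_cases hne : i = l
  · subst hne
    have h1 := hg.kipm {i, i + i} (by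
      intro n hn
      simp only [Finset.mem_insert, Finset.mem_singleton] at hn
      omega) (fun n => if n = i then 2 * x * y + 2 * y * z else 2 * x * z)
      (x ^ 2 + y ^ 2 + z ^ 2) (by
        intro ζ hζ
        rw [Finset.sum_pair hil]
        have := key ζ hζ
        simp only [if_true, if_neg hil.symm]
        linarith)
    rw [Finset.sum_pair hil] at h1
    simp only [if_true, if_neg hil.symm] at h1
    linarith
  · have h1 := hg.kipm {i, l, i + l} (by
      intro n hn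
      simp only [Finset.mem_insert, Finset.mem_singleton] at hn
      omega) (fun n => if n = i then 2 * x * y else if n = l then 2 * y * z else 2 * x * z)
      (x ^ 2 + y ^ 2 + z ^ 2) (by
        intro ζ hζ
        rw [Finset.sum_insert (by simp [hne]; omega), Finset.sum_pair hll]
        have := key ζ hζ
        simp only [if_true, if_neg hil.symm, if_neg hll.symm, if_neg (Ne.symm hne)]
        linarith)
    rw [Finset.sum_insert (by simp [hne]; omega), Finset.sum_pair hll] at h1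
    simp only [if_true, if_neg hil.symm, if_neg hll.symm, if_neg (Ne.symm hne)] at h1
    linarith

/-- `|c_i| ≤ 2 c_0`. -/
theorem Car.abs_le (hg : Car g c) {i : ℕ} (hi : 1 ≤ i) : |c i| ≤ 2 * c 0 := by
  have h1 := hg.toe hi le_rfl 1 1 0
  have h2 := hg.toe hi le_rfl 1 (-1) 0
  rw [_root_.abs_le]
  constructor <;> linarith

theorem Car.c0 (hg : Car g c) : 0 ≤ c 0 := by
  have := hg.pos 0 (by simp)
  rwa [hg.zero, Complex.ofReal_re] at this

/-- (TOE) `1 + 2 c_i c_l c_{i+l} - c_i² - c_l² - c_{i+l}² ≥ 0` for `g = 1 + 2 Σ c_i z^i`. -/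
theorem Car.toe3 (hg : Car g c) (h0 : c 0 = 1) {i l : ℕ} (hi : 1 ≤ i) (hl : 1 ≤ l)
    (hlt : |c l| < 2) : 0 ≤ 4 + c i * c l * c (i + l) - c i ^ 2 - c l ^ 2 - c (i + l) ^ 2 := by
  have h1 := hg.toe hi hl (4 - c l ^ 2) (c l * c (i + l) - 2 * c i) (c i * c l - 2 * c (i + l))
  rw [h0] at h1
  have h2 : 0 < 4 - c l ^ 2 := by
    have := abs_lt.mp hlt
    nlinarith
  have h3 : 0 ≤ (4 - c l ^ 2) *
      (4 + c i * c l * c (i + l) - c i ^ 2 - c l ^ 2 - c (i + l) ^ 2) := by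
    have e : (4 - c l ^ 2) * (4 + c i * c l * c (i + l) - c i ^ 2 - c l ^ 2 - c (i + l) ^ 2) =
      ((4 - c l ^ 2) ^ 2 + (c l * c (i + l) - 2 * c i) ^ 2 + (c i * c l - 2 * c (i + l)) ^ 2) * 1 +
      (4 - c l ^ 2) * (c l * c (i + l) - 2 * c i) * c i +
      (c l * c (i + l) - 2 * c i) * (c i * c l - 2 * c (i + l)) * c l +
      (4 - c l ^ 2) * (c i * c l - 2 * c (i + l)) * c (i + l) := by ring
    rw [e]; exact h1
  exact nonneg_of_mul_nonneg_right h3 h2

/-- The real series. -/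
theorem Car.hasSum_real (hg : Car g c) {x : ℝ} (hx : |x| < 1) :
    HasSum (fun n => c n * x ^ n) (g x).re := by
  have h1 := hg.sum (x : ℂ) (by simpa using hx)
  have h2 := Complex.hasSum_re h1
  refine h2.congr_fun fun n => ?_
  rw [← Complex.ofReal_pow, ← Complex.ofReal_mul, Complex.ofReal_re]

end Pool.Agent.B5.H39.Cara
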