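import Pool.Agent.Lib.MP_b5021c_nt.KO.H39.Cara3

/-!
# Real Caratheodory functions: the multiplication principle, quotients of polynomials
-/

namespace Pool.Agent.B5.H39.Cara

open Metric Filter Topology Complex

/-- The minimum principle. -/
theorem re_nonneg_of_circle {h : ℂ → ℂ} (hd : DiffContOnCl ℂ h (ball 0 1))
    (hc : ∀ z : ℂ, ‖z‖ = 1 → 0 ≤ (h z).re) : ∀ z : ℂ, ‖z‖ < 1 → 0 ≤ (h z).re := by
  intro z hz
  have hd2 : DiffContOnCl ℂ (fun w => Complex.exp (-h w)) (ball 0 1) := by
    have h1 : DiffContOnCl ℂ (fun w => -h w) (ball 0 1) := hd.neg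
    exact ⟨h1.differentiableOn.cexp, h1.continuousOn.cexp⟩
  have h2 := Complex.norm_le_of_forall_mem_frontier_norm_le (U := ball (0 : ℂ) 1)
    (f := fun w => Complex.exp (-h w)) (C := 1) isBounded_ball hd2 (by
      intro w hw
      rw [frontier_ball (0 : ℂ) one_ne_zero, mem_sphere_zero_iff_norm] at hw
      have h3 := hc w hw
      show ‖Complex.exp (-h w)‖ ≤ 1
      rw [Complex.norm_exp, Complex.neg_re]
      exact Real.exp_le_one_iff.mpr (by linarith)) (z := z) (by
      rw [closure_ball (0 : ℂ) one_ne_zero, mem_closedBall_zero_iff]; exact hz.le)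
  rw [Complex.norm_exp, Complex.neg_re] at h2
  have := Real.exp_le_one_iff.mp h2
  linarith

variable {g : ℂ → ℂ} {c : ℕ → ℝ}

/-- The coefficients after multiplication of the measure by `|1 - a z|²`. -/
noncomputable def mc (a : ℝ) (c : ℕ → ℝ) (n : ℕ) : ℝ :=
  (1 + a ^ 2) * c n - a * c (n + 1) - a * (if n = 0 then 0 else if n = 1 then 2 * c 0
    else c (n - 1))

theorem conj_of_norm {z : ℂ} (hz : ‖z‖ = 1) : z * (starRingEnd ℂ) z = 1 := by
  rw [Complex.mul_conj, Complex.normSq_eq_norm_sq, hz]
  simp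

/-- **The multiplication principle.** -/
theorem Car.mulp (hg : Car g c) (a : ℝ) : ∃ G : ℂ → ℂ, Car G (mc a c) ∧
    ∀ z : ℂ, ‖z‖ < 1 → z * G z = (z - a) * (1 - a * z) * g z + a * (1 - z ^ 2) * c 0 := by
  obtain ⟨H, hH, hgH⟩ := shift (c := fun n => (c n : ℂ)) hg.sum 1
  simp only [Finset.sum_range_one, pow_zero, mul_one, pow_one] at hgH
  have hgd := hg.diff
  have hHd := diffOn hH
  set G : ℂ → ℂ := fun z => (1 + (a : ℂ) ^ 2 - a * z) * g z - a * H z - a * z * c 0 with hG
  have hGz : ∀ z : ℂ, ‖z‖ < 1 → z * G z = (z - a) * (1 - a * z) * g z + a * (1 - z ^ 2) * c 0 := by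
    intro z hz
    rw [hG]
    show z * ((1 + (a : ℂ) ^ 2 - a * z) * g z - a * H z - a * z * c 0) = _
    linear_combination a * hgH z hz
  refine ⟨G, ⟨fun z hz => ?_, fun z hz => ?_⟩, hGz⟩
  · -- the series
    have h1 := hg.sum z hz
    have h2 := hH z hz
    have h3 : HasSum (fun n => (if n = 0 then (0 : ℂ) else if n = 1 then c 0
        else (c (n - 1) : ℂ)) * z ^ n) (z * g z) := by
      have h4 := h1.mul_left z
      have h5 : HasSum (fun n => (fun n => (if n = 0 then (0 : ℂ) else if n = 1 then c 0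
          else (c (n - 1) : ℂ)) * z ^ n) (n + 1)) (z * g z) := by
        refine h4.congr_fun fun n => ?_
        by_cases hn : n = 0
        · subst hn; simp [mul_comm]
        · simp only [Nat.add_eq_zero_iff, one_ne_zero, and_false, if_false, add_eq_right, hn,
            Nat.add_sub_cancel]
          rw [pow_succ]; ring
      have h6 := (hasSum_nat_add_iff (f := fun n => (if n = 0 then (0 : ℂ) else if n = 1 then c 0
          else (c (n - 1) : ℂ)) * z ^ n) 1).mp h5
      simpa using h6
    have h7 : HasSum (fun n => (if n = 1 then (c 0 : ℂ) else 0) * z ^ n) (c 0 * z) := by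
      have h8 := hasSum_ite_eq 1 ((c 0 : ℂ) * z)
      refine h8.congr_fun fun n => ?_
      by_cases hn : n = 1
      · subst hn; simp
      · simp [hn]
    have h9 := ((h1.mul_left (1 + (a : ℂ) ^ 2)).sub ((h3.add h7).mul_left (a : ℂ))).sub
      (h2.mul_left (a : ℂ))
    have e : G z = (1 + (a : ℂ) ^ 2) * g z - a * (z * g z + c 0 * z) - a * H z := by
      rw [hG]; ring
    rw [e]
    refine h9.congr_fun fun n => ?_
    unfold mc
    by_cases h0 : n = 0
    · subst h0
      simp
    · by_cases h1 : n = 1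
      · subst h1
        simp only [one_ne_zero, if_false, if_true]
        push_cast
        ring
      · simp only [h0, h1, if_false]
        push_cast
        ring
  · -- the real part
    have hr : ∀ r : ℝ, 0 ≤ r → r < 1 →
        0 ≤ ((1 + (a : ℂ) ^ 2 - a * z) * g (r * z) - a * (r * H (r * z)) - a * z * c 0).re := by
      intro r hr0 hr1
      have hcl := diffCl hgd hr0 hr1
      have hclH := diffCl hHd hr0 hr1
      refine re_nonneg_of_circle (h := fun z => (1 + (a : ℂ) ^ 2 - a * z) * g (r * z) -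
        a * (r * H (r * z)) - a * z * c 0) ?_ ?_ z hz
      · have e1 : DiffContOnCl ℂ (fun z : ℂ => 1 + (a : ℂ) ^ 2 - a * z) (ball 0 1) :=
          DifferentiableOn.diffContOnCl (by fun_prop)
        have e2 : DiffContOnCl ℂ (fun z : ℂ => (a : ℂ) * z * c 0) (ball 0 1) :=
          DifferentiableOn.diffContOnCl (by fun_prop)
        have e3 : DiffContOnCl ℂ (fun z : ℂ => (1 + (a : ℂ) ^ 2 - a * z) * g (r * z)) (ball 0 1) :=
          e1.smul hcl
        have e4 : DiffContOnCl ℂ (fun z : ℂ => (a : ℂ) * (r * H (r * z))) (ball 0 1) :=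
          (hclH.const_smul (r : ℂ)).const_smul (a : ℂ)
        exact (e3.sub e4).sub e2
      · intro w hw
        have hrw : ‖(r : ℂ) * w‖ < 1 := by
          rw [norm_mul, hw, Complex.norm_real, Real.norm_of_nonneg hr0, mul_one]
          exact hr1
        have hw1 := conj_of_norm hw
        have e1 : (1 + (a : ℂ) ^ 2 - a * w) * g (r * w) - a * (r * H (r * w)) - a * w * c 0 =
            ((Complex.normSq (1 - a * w) : ℝ) : ℂ) * g (r * w) +
              a * c 0 * ((starRingEnd ℂ) w - w) := by
          have e2 := hgH _ hrw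
          rw [← Complex.mul_conj]
          simp only [map_sub, map_one, map_mul, Complex.conj_ofReal]
          linear_combination ((a : ℂ) * (starRingEnd ℂ) w) * e2 +
            ((a : ℂ) ^ 2 * g (r * w) * (-1) + a * r * H (r * w)) * hw1
        rw [e1, Complex.add_re, Complex.re_ofReal_mul]
        have e3 : ((a : ℂ) * c 0 * ((starRingEnd ℂ) w - w)).re = 0 := by
          rw [← Complex.ofReal_mul, Complex.re_ofReal_mul]
          simp
        rw [e3, add_zero]
        exact mul_nonneg (Complex.normSq_nonneg _) (hg.pos _ hrw)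
    have hlim : Tendsto (fun r : ℝ =>
        ((1 + (a : ℂ) ^ 2 - a * z) * g (r * z) - a * (r * H (r * z)) - a * z * c 0).re) (𝓝[<] 1)
        (𝓝 (G z).re) := by
      refine Tendsto.mono_left ?_ nhdsWithin_le_nhds
      have hz' : z ∈ ball (0 : ℂ) 1 := by simpa using hz
      have h1 : ContinuousAt g z := (hgd.differentiableAt (isOpen_ball.mem_nhds hz')).continuousAt
      have h2 : ContinuousAt H z := (hHd.differentiableAt (isOpen_ball.mem_nhds hz')).continuousAt
      have h3 : Tendsto (fun r : ℝ => (r : ℂ) * z) (𝓝 1) (𝓝 z) := by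
        have h3 : Continuous fun r : ℝ => (r : ℂ) * z := by fun_prop
        have h4 := h3.tendsto 1
        simpa using h4
      have h4 : Tendsto (fun r : ℝ => (r : ℂ)) (𝓝 1) (𝓝 1) := by
        have h4 := Complex.continuous_ofReal.tendsto 1
        simpa using h4
      have h5 := h1.tendsto.comp h3
      have h6 := h2.tendsto.comp h3
      have h7 : Tendsto (fun r : ℝ => (1 + (a : ℂ) ^ 2 - a * z) * g (r * z) -
          a * (r * H (r * z)) - a * z * c 0) (𝓝 1)
          (𝓝 ((1 + (a : ℂ) ^ 2 - a * z) * g z - a * (1 * H z) - a * z * c 0)) :=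
        ((h5.const_mul _).sub ((h4.mul h6).const_mul _)).sub_const _
      rw [one_mul] at h7
      exact (Complex.continuous_re.tendsto _).comp h7
    refine ge_of_tendsto hlim ?_
    have h5 : ∀ᶠ r : ℝ in 𝓝[<] 1, 0 ≤ r := by
      refine Filter.Eventually.filter_mono nhdsWithin_le_nhds ?_
      filter_upwards [lt_mem_nhds (show (0 : ℝ) < 1 by norm_num)] with r hr
      exact hr.le
    filter_upwards [h5, self_mem_nhdsWithin] with r hr0 hr1
    exact hr r hr0 hr1

end Pool.Agent.B5.H39.Cara
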