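import Pool.Agent.Lib.MP_b5021c_nt.KO.H39.Mulp

/-!
# Real Caratheodory functions: quotients of polynomials
-/

namespace Pool.Agent.B5.H39.Cara

open Metric Filter Topology Complex

/-- A holomorphic function, symmetric with respect to conjugation, with nonnegative real part. -/
theorem exists_car {g : ℂ → ℂ} (hd : DifferentiableOn ℂ g (ball 0 1))
    (hs : ∀ z : ℂ, ‖z‖ < 1 → g ((starRingEnd ℂ) z) = (starRingEnd ℂ) (g z))
    (hp : ∀ z : ℂ, ‖z‖ < 1 → 0 ≤ (g z).re) : ∃ c : ℕ → ℝ, Car g c := by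
  set b : ℕ → ℂ := fun n => (n.factorial : ℂ)⁻¹ * iteratedDeriv n g 0 with hb
  have h1 : ∀ z : ℂ, ‖z‖ < 1 → HasSum (fun n => b n * z ^ n) (g z) := by
    intro z hz
    have h2 := Complex.hasSum_taylorSeries_on_ball (f := g) (c := 0) (r := 1) hd
      (z := z) (by simpa using hz)
    refine h2.congr_fun fun n => ?_
    rw [hb, sub_zero, smul_eq_mul, smul_eq_mul]
    ring
  have h2 : ∀ z : ℂ, ‖z‖ < 1 → HasSum (fun n => (starRingEnd ℂ) (b n) * z ^ n) (g z) := by
    intro z hz
    have hz' : ‖(starRingEnd ℂ) z‖ < 1 := by rwa [RCLike.norm_conj]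
    have h3 := Complex.hasSum_conj'.mpr (h1 _ hz')
    rw [hs z hz, Complex.conj_conj] at h3
    refine h3.congr_fun fun n => ?_
    show _ = (starRingEnd ℂ) (b n * (starRingEnd ℂ) z ^ n)
    rw [map_mul (starRingEnd ℂ) (b n), map_pow, Complex.conj_conj]
  have h3 := uniq h1 h2
  have h4 : ∀ n, ((b n).re : ℂ) = b n := fun n =>
    Complex.conj_eq_iff_re.mp (congrFun h3 n).symm
  refine ⟨fun n => (b n).re, ⟨fun z hz => ?_, hp⟩⟩
  refine (h1 z hz).congr_fun fun n => ?_
  show ((b n).re : ℂ) * z ^ n = _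
  rw [h4]

open Polynomial in
/-- Product with a polynomial. -/
theorem mul_poly {c : ℕ → ℝ} {g : ℂ → ℂ}
    (h : ∀ z : ℂ, ‖z‖ < 1 → HasSum (fun n => (c n : ℂ) * z ^ n) (g z)) (P : ℝ[X]) :
    ∀ z : ℂ, ‖z‖ < 1 → HasSum (fun n =>
      ((PowerSeries.coeff n ((P : PowerSeries ℝ) * PowerSeries.mk c) : ℝ) : ℂ) * z ^ n)
        (aeval z P * g z) := by
  intro z hz
  induction P using Polynomial.induction_on with
  | C a =>
    have h1 := (h z hz).mul_left (a : ℂ)
    have e0 : aeval z (C a : ℝ[X]) = (a : ℂ) := by simp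
    rw [e0]
    refine h1.congr_fun fun n => ?_
    rw [Polynomial.coe_C, PowerSeries.coeff_C_mul, PowerSeries.coeff_mk]
    push_cast
    ring
  | add p q hp hq =>
    have h1 := hp.add hq
    rw [map_add, add_mul]
    refine h1.congr_fun fun n => ?_
    rw [Polynomial.coe_add, add_mul, map_add]
    push_cast
    ring
  | monomial k a ih =>
    have h1 := ih.mul_left z
    have e0 : z * (aeval z (C a * X ^ k : ℝ[X]) * g z) = aeval z (C a * X ^ (k + 1) : ℝ[X]) * g z := by
      simp only [map_mul, map_pow, aeval_X, pow_succ]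
      ring
    rw [e0] at h1
    have e : ((C a * X ^ (k + 1) : ℝ[X]) : PowerSeries ℝ) * PowerSeries.mk c =
        PowerSeries.X * (((C a * X ^ k : ℝ[X]) : PowerSeries ℝ) * PowerSeries.mk c) := by
      simp only [Polynomial.coe_mul, Polynomial.coe_pow, Polynomial.coe_X, Polynomial.coe_C,
        pow_succ]
      ring
    rw [e]
    have h3 := (hasSum_nat_add_iff (f := fun n => ((PowerSeries.coeff n
        (PowerSeries.X * (((C a * X ^ k : ℝ[X]) : PowerSeries ℝ) * PowerSeries.mk c)) : ℝ) : ℂ) *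
          z ^ n) 1 (g := aeval z (C a * X ^ (k + 1) : ℝ[X]) * g z)).mp (by
      refine h1.congr_fun fun n => ?_
      rw [PowerSeries.coeff_succ_X_mul, pow_succ]
      ring)
    rw [Finset.sum_range_one, PowerSeries.coeff_zero_X_mul] at h3
    simpa using h3

open Polynomial in
/-- Polynomials. -/
theorem poly_sum (P : ℝ[X]) (z : ℂ) :
    HasSum (fun n => ((P.coeff n : ℝ) : ℂ) * z ^ n) (aeval z P) := by
  have h : HasSum (fun n => ((P.coeff n : ℝ) : ℂ) * z ^ n)
      (∑ n ∈ Finset.range (P.natDegree + 1), ((P.coeff n : ℝ) : ℂ) * z ^ n) := by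
    refine hasSum_sum_of_ne_finset_zero fun n hn => ?_
    rw [Finset.mem_range, not_lt] at hn
    rw [coeff_eq_zero_of_natDegree_lt (by omega)]
    simp
  have e : aeval z P = ∑ n ∈ Finset.range (P.natDegree + 1), ((P.coeff n : ℝ) : ℂ) * z ^ n := by
    rw [aeval_eq_sum_range]
    refine Finset.sum_congr rfl fun n _ => ?_
    rw [Complex.real_smul]
  rw [e]
  exact h

open Polynomial in
/-- The coefficients of a quotient: `P g = N`. -/
theorem Car.series {c : ℕ → ℝ} {g : ℂ → ℂ} (hg : Car g c) {P N : ℝ[X]}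
    (h : ∀ z : ℂ, ‖z‖ < 1 → aeval z P * g z = aeval z N) :
    (P : PowerSeries ℝ) * PowerSeries.mk c = (N : PowerSeries ℝ) := by
  have h1 : ∀ z : ℂ, ‖z‖ < 1 → HasSum (fun n =>
      ((PowerSeries.coeff n ((P : PowerSeries ℝ) * PowerSeries.mk c) : ℝ) : ℂ) * z ^ n)
        (aeval z N) := by
    intro z hz
    rw [← h z hz]
    exact mul_poly hg.sum P z hz
  have h2 := uniq h1 (c' := fun n => ((N.coeff n : ℝ) : ℂ)) fun z _ => poly_sum N z
  ext n
  have h3 := congrFun h2 n
  rw [Polynomial.coeff_coe]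
  exact_mod_cast h3

open Polynomial in
theorem aeval_conj (P : ℝ[X]) (z : ℂ) :
    aeval ((starRingEnd ℂ) z) P = (starRingEnd ℂ) (aeval z P) := by
  rw [aeval_eq_sum_range, aeval_eq_sum_range, map_sum]
  refine Finset.sum_congr rfl fun n _ => ?_
  rw [Complex.real_smul, Complex.real_smul, map_mul, map_pow, Complex.conj_ofReal]

open Polynomial in
/-- Quotients of real polynomials. -/
theorem car_quo {N E : ℝ[X]} (hE : ∀ z : ℂ, ‖z‖ < 1 → aeval z E ≠ 0)
    (hp : ∀ z : ℂ, ‖z‖ < 1 → 0 ≤ (aeval z N * (starRingEnd ℂ) (aeval z E)).re) :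
    ∃ c : ℕ → ℝ, Car (fun z => aeval z N / aeval z E) c ∧
      (E : PowerSeries ℝ) * PowerSeries.mk c = (N : PowerSeries ℝ) := by
  have hd : DifferentiableOn ℂ (fun z : ℂ => aeval z N / aeval z E) (ball 0 1) := by
    refine DifferentiableOn.div ?_ ?_ ?_
    · exact (Polynomial.differentiable_aeval N).differentiableOn
    · exact (Polynomial.differentiable_aeval E).differentiableOn
    · intro w hw
      exact hE w (by simpa using hw)
  obtain ⟨c, hc⟩ := exists_car hd (by
    intro z _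
    show aeval ((starRingEnd ℂ) z) N / aeval ((starRingEnd ℂ) z) E = _
    rw [aeval_conj, aeval_conj, map_div₀]) (by
    intro z hz
    show 0 ≤ (aeval z N / aeval z E).re
    have h1 := hp z hz
    have h2 : aeval z N / aeval z E = ((Complex.normSq (aeval z E))⁻¹ : ℝ) *
        (aeval z N * (starRingEnd ℂ) (aeval z E)) := by
      have h3 := hE z hz
      have h4 : (starRingEnd ℂ) (aeval z E) ≠ 0 := by
        intro h0
        exact h3 (by simpa using h0)
      push_cast
      rw [← Complex.mul_conj]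
      field_simp
    rw [h2, Complex.re_ofReal_mul]
    exact mul_nonneg (inv_nonneg.mpr (Complex.normSq_nonneg _)) h1)
  refine ⟨c, hc, hc.series fun z hz => ?_⟩
  field_simp [hE z hz]

end Pool.Agent.B5.H39.Cara
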