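import Pool.Agent.Lib.MP_b5021c_nt.KO.H39.S5a1
import Pool.Agent.Lib.MP_b5021c_nt.KO.H67.L5a
import Pool.Agent.Lib.MP_b5021c_nt.KO.H67.Tk
import Pool.Agent.Lib.MP_b5021c_nt.E.H52.Cnf
import Pool.Agent.Lib.MP_b5021c_nt.E.H63.Sel
import Pool.Agent.Lib.MP_b5021c_nt.KO.H40.K4w

/-!
# MP_b5021c_nt, all `θ`, K odd, (O4), length at least five: row OC_S5A, the closing A at `Z 0`
-/

set_option linter.unusedSectionVars false

namespace Pool.Agent.B5.KO.H39

open scoped LaurentPolynomial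
open Polynomial
open Pool.Agent.B5 Pool.Agent.B5.KE
open Pool.Agent.B5.Nr (TrezS)
open Pool.Agent.B5.KV67 (TT1 tA_val)
open Pool.Agent.B5.OC (Oc Ar3 Ar4)

section

variable {P : Type} [Fintype P] [DecidableEq P] {L : Type} [AddCommGroup L] [Module.Free ℤ L]
  [Module.Finite ℤ L] {phi : L →+ (P → ℤ)} {D : AO ℤ L} {eta : L → (RO ℤ)ˣ} {k : ℕ}
  {Z : ZMod (k + 3) → L} {mu : ZMod (k + 3) → L →+ ℤ}

/-- Two distinct rays of the cycle. -/
theorem zne (h : Cyc phi D eta k Z mu) {i j : ZMod (k + 3)} (hij : i - j ≠ 0) : Z i ≠ Z j :=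
  fun e => hij (sub_eq_zero.mpr (h.inj e))

/-- `mu i` on a ray of the cycle which is not a neighbour. -/
theorem mu_far (h : Cyc phi D eta k Z mu) {i j : ZMod (k + 3)} (h1 : j - (i + 1) ≠ 0)
    (h2 : j - (i - 1) ≠ 0) : mu i (Z j) = 0 :=
  h.oth i (Z j) (h.mtl j).r0 (zne h h1) (zne h h2)

theorem mu_nx (h : Cyc phi D eta k Z mu) {i j : ZMod (k + 3)} (h1 : j = i + 1) : mu i (Z j) = 1 := by
  rw [h1]
  exact h.nxt i

theorem mu_pv (h : Cyc phi D eta k Z mu) {i j : ZMod (k + 3)} (h1 : j = i - 1) : mu i (Z j) = -1 := by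
  rw [h1]
  exact h.prv i

/-- The data of the closing A at `Z 0`. -/
theorem gd_of (hMm : MmulS) (hMV : MVS) (hM1 : M1S) (hE1 : E1S) (hE2 : E2S) (hClp : ClpS)
    (hC0 : Coeff0S) (hG0 : G0S) (hI1 : Inj1S) (hRk : RkS) (hFD : FDS) (hWW : WWfS)
    (hRF : RayFacS) (hMug : MugS) (hMco : McoS) (hTr : TrezS) (hTsa : TsaS) (hRS : RaySpanS)
    (hFsp : FspS) (hF1 : F1S) (hVco : VcoS) (hRkU : RkUSS) (hLMN : LMNS)
    {q f E γ : ℤ[X]} {a : ℝ} {j : ℕ} {C : Set L} {psi : RO ℤ} {s n : ℤ}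
    (W : Oc phi D q f E a j eta C k Z mu) (hk : 2 ≤ k)
    (hA : ∀ i, Ar4 D eta Z (toLaurent (X * f)) psi i)
    (hγ0 : 1 ≤ γ.coeff 0)
    (hγ : eps s n * (LaurentPolynomial.T 1 * toLaurent f - LaurentPolynomial.T (-1) * psi) =
      LaurentPolynomial.T 1 * toLaurent γ) (Y : Dp phi (Z 0) (Z 2)) : Gd phi D E j eta Z Y := by
  classical
  have h := W.cyc
  have W0 := W.kb
  have fp := W0.ko.min.fp
  have hD := fp.dd
  have hj := W0.ko.j2
  have hrk := W0.ko.rk
  have h2 : 2 ≤ Module.finrank ℤ L := by omega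
  have n1 := KO.H40.one_ne k
  have n2 := KO.H40.two_ne k
  have n3 := KO.H40.three_ne (k := k) (by omega)
  have n4 := KO67.four_ne hk
  obtain ⟨e, he, hRN⟩ := W0.rn (Z 0) (W.mem 0)
  have rZ : ∀ i, Ray D (Z i) := fun i => (h.mtl i).r0
  have hM' : Mut D (Z 0) (Z 1) (ld e 1) (eta (Z 1)) := by
    have := h.mtl 0
    rw [zero_add] at this
    rw [← he]
    exact this
  have d01 : ∀ i, phi (Z 0) i = 0 ∨ phi (Z 1) i = 0 := h.dis 0 1 (fun e => n1 e.symm)
  have d02 : ∀ i, phi (Z 0) i = 0 ∨ phi (Z 2) i = 0 := h.dis 0 2 (fun e => n2 e.symm)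
  have d03 : ∀ i, phi (Z 0) i = 0 ∨ phi (Z 3) i = 0 := h.dis 0 3 (fun e => n3 e.symm)
  have hS0 : phi (Z 0) Y.i0 = 1 := Y.h0
  -- the double port for `Z 1`
  obtain ⟨i1, hi1⟩ := exists_port hD (rZ 1)
  have hR0 : phi (Z 1) Y.i0 = 0 := KO.H40.port_zero d01 hS0
  let Y1 : Dp phi (Z 0) (Z 1) :=
    { i0 := Y.i0
      h0 := Y.h0
      T := ⟨Z 1, hR0⟩
      eT := rfl
      i1 := i1
      k1 := (co phi i1).comp (incl _)
      hk := fun _ => rfl
      h1 := hi1 }
  obtain ⟨nu, -, hnu, c, G, hc, hcl, hdd, hcv, -, hc0, -, -, -⟩ := KO67.first hMm hMV hE1 hClp hC0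
    hG0 hI1 hRk hFD hWW hRF hMug hMco hTr hTsa W0 W.f0 (W.mem 0) he hRN hM' Y1
  have hload : -e = eta (Z 0) * tA := by
    rw [he, ← kap_ld, mul_comm]
    rfl
  rw [hload] at hcl
  have hgg : GG D eta Y = cst c * G := hcl
  have hqf : q - f = -(X * E) := by
    rw [← W.eE]
    ring
  rw [hqf] at hc0
  have hcz : ∀ z : Circle, evR z c ≠ 0 := by
    intro z hz
    have h3 := congrArg (evR z) hc0
    rw [map_mul, hz, zero_mul, KO58.evR_pl, map_neg, map_mul, aeval_X] at h3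
    have h4 : (z : ℂ) * aeval (z : ℂ) E = 0 := by
      have := h3.symm
      rwa [neg_eq_zero] at this
    rcases mul_eq_zero.mp h4 with h5 | h5
    · exact Circle.coe_ne_zero z h5
    · exact W.Ez z (Circle.norm_coe z).le h5
  have hcc := (hMV ℤ).1 _ _ hc
  have hcu : IsUnit c := hM1 ℤ c hcc.1 hcc.2 hcz
  have hG0' : (GG D eta Y).coeff 0 = -toLaurent (X * E) := by
    rw [hgg, H71.cst_mul_coeff, hc0, map_neg]
  have hddG : DD (phO phi (Z 0) Y.i0) (GG D eta Y) := by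
    rw [hgg]
    exact H78.dd_cst hcu hcz hdd
  have hrkG : Module.finrank ℤ (Ker (co phi Y.i0)) = 2 * j := by
    have := finrank_ker hRk Y.h0
    omega
  -- the coefficients at `Z 2`, `Z 3`
  have hA0 := hA 0
  have x2 := W.co 2
  have x3 := W.co 3
  have x02 := hA0.a0.s02
  have x03 := hA0.s03
  simp only [zero_add] at x02 x03
  have hγne : (toLaurent γ : RO ℤ) ≠ 0 := by
    rw [toLaurent_ne_zero]
    intro h3
    rw [h3, coeff_zero] at hγ0
    omega
  have hx : (LaurentPolynomial.T 1 * toLaurent f - LaurentPolynomial.T (-1) * psi : RO ℤ) ≠ 0 := by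
    intro h3
    rw [h3, mul_zero] at hγ
    apply hγne
    have h4 : (LaurentPolynomial.T (-1) * (LaurentPolynomial.T 1 * toLaurent γ) : RO ℤ) = 0 := by
      rw [← hγ, mul_zero]
    rwa [← mul_assoc, TT1, one_mul] at h4
  have c2 : D.coeff (Z 2) + ((eta (Z 0) * tA : (RO ℤ)ˣ) : RO ℤ) * D.coeff (Z 2 + Z 0) ≠ 0 := by
    intro h3
    apply hx
    rw [add_comm (Z 2) (Z 0), Units.val_mul, tA_val] at h3
    rw [map_mul, toLaurent_X] at x2
    linear_combination (eta (Z 2) : RO ℤ) * h3 - x2 + LaurentPolynomial.T (-1) * x02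
  have c3 : D.coeff (Z 3) + ((eta (Z 0) * tA : (RO ℤ)ˣ) : RO ℤ) * D.coeff (Z 3 + Z 0) ≠ 0 := by
    intro h3
    apply hx
    rw [add_comm (Z 3) (Z 0), Units.val_mul, tA_val] at h3
    rw [map_mul, toLaurent_X] at x3
    linear_combination (eta (Z 3) : RO ℤ) * h3 - x3 + LaurentPolynomial.T (-1) * x03
  have hcst1 : cl (co phi Y.i0) (Z 0) Y.h0 (eta (Z 0) * tA) D = cst (1 : RO ℤ) * GG D eta Y := by
    have h3 : (cst (1 : RO ℤ) : AO ℤ (Ker (co phi Y.i0))) = 1 := rfl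
    rw [h3, one_mul]
  -- the rays
  have ray2 : ∀ x : Ker (co phi Y.i0), (x : L) = Z 2 →
      Ray (GG D eta Y) x ∧ ImS (phO phi (Z 0) Y.i0) x := by
    intro x hxz
    have m0 : mu 3 (Z 0) = 0 := mu_far h (by
      intro h3
      exact n4 (by linear_combination -h3)) (by
      intro h3
      exact n2 (by linear_combination -h3))
    obtain ⟨lam, l2, l0, hl⟩ := KVH29.fsr hRS hE2 P L phi D eta (Z 2) (Z 3) (Z 0) hD h2
      (by
        have h3 := KO67.kpr_cyc h 2
        have h4 : (2 : ZMod (k + 3)) + 1 = 3 := by norm_num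
        rwa [h4] at h3) (rZ 0) (zne h (by
          intro h3
          exact n2 (by linear_combination -h3)))
      (fun i => by
        rcases d02 i with h3 | h3
        · exact Or.inl h3
        · rcases d03 i with h4 | h4
          · exact Or.inl h4
          · exact Or.inr ⟨h3, h4⟩)
      ((h.ker 3 (Z 0)).mpr m0)
    exact KV.H76.ray_im hFsp fp Y.h0 hxz (rZ 0) (rZ 2) (fun i => (d02 i).symm) l0 l2
      (fun x hx hx0 hxS hxR hxSR => hl x hx hx0 hxR hxS (by rwa [add_comm] at hxSR)) hcst1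
      one_ne_zero c2
  have ray3 : ∀ x : Ker (co phi Y.i0), (x : L) = Z 3 →
      Ray (GG D eta Y) x ∧ ImS (phO phi (Z 0) Y.i0) x := by
    intro x hxz
    have m0 : mu 1 (Z 3) = 0 := mu_far h (by
      intro h3
      exact n1 (by linear_combination h3)) (by
      intro h3
      exact n3 (by linear_combination h3))
    obtain ⟨lam, l0, l3, hl⟩ := KVH29.fsr hRS hE2 P L phi D eta (Z 0) (Z 1) (Z 3) hD h2
      (by
        have h3 := KO67.kpr_cyc h 0
        rwa [zero_add] at h3) (rZ 3) (zne h (by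
          intro h3
          exact n3 (by linear_combination h3)))
      (fun i => by
        rcases d03 i with h3 | h3
        · rcases h.dis 1 3 (fun e => n2 (by linear_combination -e)) i with h4 | h4
          · exact Or.inr ⟨h3, h4⟩
          · exact Or.inl h4
        · exact Or.inl h3)
      ((h.ker 1 (Z 3)).mpr m0)
    exact KV.H76.ray_im hFsp fp Y.h0 hxz (rZ 0) (rZ 3) (fun i => (d03 i).symm) l0 l3
      (fun x hx hx0 hxS hxR hxSR => hl x hx hx0 hxS hxR hxSR) hcst1 one_ne_zero c3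
  -- the mutual pair
  have m20 : mu 2 (Z 0) = 0 := mu_far h (by
      intro h3
      exact n3 (by linear_combination -h3)) (by
      intro h3
      exact n1 (by linear_combination -h3))
  have m30 : mu 3 (Z 0) = 0 := mu_far h (by
      intro h3
      exact n4 (by linear_combination -h3)) (by
      intro h3
      exact n2 (by linear_combination -h3))
  have F2 : KO67.Flp (phO phi (Z 0) Y.i0) (GG D eta Y) Y.T (eta (Z 2))
      ((mu 2).comp (incl (Ker (co phi Y.i0)))) :=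
    KO67.flp_cl hF1 hD (rZ 2) d02 (fun a ha => (h.ker 2 a).mp ha) m20 Y.eT
  have u2 : ∀ b ∈ US (eta (Z 2)) Y.T (GG D eta Y), mu 2 (b : L) = 0 := fun b hb =>
    KO67.flp_US hVco hddG (ray2 Y.T Y.eT).1 F2 (by
      change mu 2 (Y.T : L) = 0
      rw [Y.eT]
      exact H52.cyc_self h 2) hb
  have hmt : ∀ x : Ker (co phi Y.i0), (x : L) = Z 3 →
      Mut (GG D eta Y) Y.T x (eta (Z 2)) (eta (Z 3)) := by
    intro x hxz
    have F3 : KO67.Flp (phO phi (Z 0) Y.i0) (GG D eta Y) x (eta (Z 3))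
        ((mu 3).comp (incl (Ker (co phi Y.i0)))) :=
      KO67.flp_cl hF1 hD (rZ 3) d03 (fun a ha => (h.ker 3 a).mp ha) m30 hxz
    refine ⟨(ray2 Y.T Y.eT).1, (ray3 x hxz).1, fun hc => ?_, fun hc => ?_⟩
    · have h3 := u2 x hc
      rw [hxz, mu_nx h (by norm_num)] at h3
      exact one_ne_zero h3
    · have h3 := KO67.flp_US hVco hddG (ray3 x hxz).1 F3 (by
        change mu 3 (x : L) = 0
        rw [hxz]
        exact H52.cyc_self h 3) hc
      change mu 3 (Y.T : L) = 0 at h3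
      rw [Y.eT, mu_pv h (by norm_num)] at h3
      omega
  obtain ⟨T3, hT3⟩ : ∃ x : Ker (co phi Y.i0), (x : L) = Z 3 :=
    ⟨⟨Z 3, KO.H40.port_zero d03 hS0⟩, rfl⟩
  have hM3 := hmt T3 hT3
  obtain ⟨g, hg⟩ : ∃ g, Module.finrank ℤ (US (eta (Z 2)) Y.T (GG D eta Y)) + g =
      Module.finrank ℤ (Ker (co phi Y.i0)) :=
    ⟨_, Nat.add_sub_cancel' (Submodule.finrank_le _)⟩
  have hda := H63.Sel.dropAt_of_mut hRkU hLMN hddG hM3 hg
  have hg1 : 1 ≤ g := by
    have hm2 : (mu 2).comp (incl (Ker (co phi Y.i0))) ≠ 0 := by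
      intro h3
      have h4 := DFunLike.congr_fun h3 T3
      change mu 2 (T3 : L) = 0 at h4
      rw [hT3, mu_nx h (by norm_num)] at h4
      exact one_ne_zero h4
    have h3 := (hRk (Ker (co phi Y.i0)) (Ker (co phi Y.i0))).1 _ hm2
    have h4 : US (eta (Z 2)) Y.T (GG D eta Y) ≤ Ker ((mu 2).comp (incl (Ker (co phi Y.i0)))) :=
      fun b hb => u2 b hb
    have h5 := Submodule.finrank_mono h4
    omega
  have him : ImS phi (Z 0) := (hI1 ℤ P L phi D fp (Z 0) (rZ 0)).1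
  refine ⟨hddG, ?_, hG0', ?_, hrkG, him, ?_, hmt, ?_, ?_⟩
  · ext x
    change (if phi (Z 0) Y.i1 = 0 then phi (x : L) Y.i1 else 0) = Y.k1 x
    have h3 : phi (Z 2) Y.i1 = 1 := by
      have h1 := Y.hk Y.T
      rw [Y.h1, Y.eT] at h1
      exact h1.symm
    rw [Y.hk, if_pos ((d02 Y.i1).resolve_right (by omega))]
  · rw [hG0']
    have h3 : ((j : ℝ) + 1) = |((-E).coeff 0 : ℝ)| := by
      rw [coeff_neg, W.E0]
      push_cast
      rw [abs_neg, abs_of_nonneg (by positivity)]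
    refine H66.classV_of (a := 1) (x' := -E) (by
      have : (0 : ℝ) ≤ j := Nat.cast_nonneg j
      linarith) ?_ h3.symm ?_
    · rw [map_mul, toLaurent_X, map_neg]
      ring
    · intro z hz
      have h4 : ((-E).map (Int.castRingHom ℂ)).eval z = aeval z (-E) := KO67.aeval_emb (-E) z
      rw [h4, map_neg]
      exact neg_ne_zero.mpr (W.Ez z hz.le)
  · rintro x (hx2 | hx3)
    · exact ray2 x hx2
    · exact ray3 x hx3
  · intro e' he' h'
    exact hda.fr e' he' _ h'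
  · intro h'
    have h3 := hda.dr _ h'
    omega

end

end Pool.Agent.B5.KO.H39
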