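import Pool.Agent.Lib.MP_b5021c_nt.KO.H39.S5a2

/-!
# MP_b5021c_nt, all `θ`, K odd, (O4), length at least five: row OC_S5A, the closing `y_2 = ε`
-/

set_option linter.unusedSectionVars false

namespace Pool.Agent.B5.KO.H39

open scoped LaurentPolynomial
open Polynomial
open Pool.Agent.B5 Pool.Agent.B5.KE
open Pool.Agent.B5.Nr (TrezS)
open Pool.Agent.B5.KV67 (TT1 tA_val)
open Pool.Agent.B5.OC (Oc Ar3 Ar4)

section

variable {P : Type} [Fintype P] [DecidableEq P] {L : Type} [AddCommGroup L] [Module.Free ℤ L]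
  [Module.Finite ℤ L] {phi : L →+ (P → ℤ)} {D : AO ℤ L} {eta : L → (RO ℤ)ˣ}

/-- The closing of the closing, with the marking of the first one. -/
noncomputable abbrev HH (D : AO ℤ L) (eta : L → (RO ℤ)ˣ) {S S2 : L} (Y : Dp phi S S2)
    (h : co (phO phi S Y.i0) Y.i1 Y.T = 1) (e : (RO ℤ)ˣ) :
    AO ℤ (Ker (co (phO phi S Y.i0) Y.i1)) :=
  cl (co (phO phi S Y.i0) Y.i1) Y.T h e (GG D eta Y)

theorem hh_csm (hb : ∀ a ∈ supp D, Bin phi a) {S S2 : L} (dis : ∀ i, phi S i = 0 ∨ phi S2 i = 0)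
    (Y : Dp phi S S2) (hY : co (phO phi S Y.i0) Y.i1 = Y.k1)
    (h : co (phO phi S Y.i0) Y.i1 Y.T = 1) (e : (RO ℤ)ˣ)
    (x : Ker (co (phO phi S Y.i0) Y.i1)) : (HH D eta Y h e).coeff x =
      csm D S S2 (eta S * tA) e ((x : Ker (co phi Y.i0)) : L) := by
  exact KO.H40.dc_csm hb dis ⟨Y.i0, Y.h0, Y.T, Y.eT, Y.i1, co (phO phi S Y.i0) Y.i1,
    fun a => by rw [hY]; exact Y.hk a, h⟩ (eta S * tA) e x

theorem hh_ray (hb : ∀ a ∈ supp D, Bin phi a) {S S2 X : L}
    (dis : ∀ i, phi S i = 0 ∨ phi S2 i = 0) (Y : Dp phi S S2)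
    (hY : co (phO phi S Y.i0) Y.i1 = Y.k1) (h : co (phO phi S Y.i0) Y.i1 Y.T = 1) (e : (RO ℤ)ˣ)
    {x : Ker (co (phO phi S Y.i0) Y.i1)} (hx : ((x : Ker (co phi Y.i0)) : L) = X) (hXne : X ≠ 0)
    {lam : L →+ ℤ} (lS : lam S = 0) (lS1 : lam S2 = 0) (lX : lam X = 0)
    (hl : ∀ y ∈ supp D, 0 ≤ lam y ∧
      (lam y = 0 → ∃ a b c : ℤ, (c = 0 ∨ c = 1) ∧ y = a • S + b • S2 + c • X))
    (hc : (HH D eta Y h e).coeff x ≠ 0) : Ray (HH D eta Y h e) x := by
  exact KO.H40.ray_dcY hb dis ⟨Y.i0, Y.h0, Y.T, Y.eT, Y.i1, co (phO phi S Y.i0) Y.i1,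
    fun a => by rw [hY]; exact Y.hk a, h⟩ (eta S * tA) e hx hXne lS lS1 lX hl hc

variable {k : ℕ} {Z : ZMod (k + 3) → L} {mu : ZMod (k + 3) → L →+ ℤ}

/-- The face of `Z 0`, `Z 2`, `Z i`. -/
theorem face_i (h : Cyc phi D eta k Z mu) (hk : 2 ≤ k) {i : ZMod (k + 3)}
    (hi : i = 1 ∨ i = 3 ∨ i = -1) : ∃ lam : L →+ ℤ, lam (Z 0) = 0 ∧ lam (Z 2) = 0 ∧
      lam (Z i) = 0 ∧ ∀ T, Ray D T → T ≠ Z 0 → T ≠ Z 2 → T ≠ Z i → 0 < lam T := by
  have n1 := KO.H40.one_ne k
  have n2 := KO.H40.two_ne k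
  have n3 := KO.H40.three_ne (k := k) (by omega)
  have n4 := KO67.four_ne hk
  have rZ : ∀ i, Ray D (Z i) := fun i => (h.mtl i).r0
  -- `mu 3`
  have a2 : mu 3 (Z 2) = -1 := mu_pv h (by norm_num)
  have a0 : mu 3 (Z 0) = 0 := mu_far h (fun e => n4 (by linear_combination -e))
    (fun e => n2 (by linear_combination -e))
  have a3 : mu 3 (Z 3) = 0 := H52.cyc_self h 3
  have a1 : mu 3 (Z 1) = 0 := mu_far h (fun e => n3 (by linear_combination -e))
    (fun e => n1 (by linear_combination -e))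
  have aT : ∀ T, Ray D T → T ≠ Z 2 → 0 ≤ mu 3 T := by
    intro T hT hne
    by_cases h4 : T = Z 4
    · rw [h4, mu_nx h (by norm_num)]
      norm_num
    · rw [h.oth 3 T hT (by
        have : (3 : ZMod (k + 3)) + 1 = 4 := by norm_num
        rwa [this]) (by
        have : (3 : ZMod (k + 3)) - 1 = 2 := by norm_num
        rwa [this])]
  -- `mu 2`
  have b1 : mu 2 (Z 1) = -1 := mu_pv h (by norm_num)
  have b3 : mu 2 (Z 3) = 1 := mu_nx h (by norm_num)
  have b2 : mu 2 (Z 2) = 0 := H52.cyc_self h 2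
  have b0 : mu 2 (Z 0) = 0 := mu_far h (fun e => n3 (by linear_combination -e))
    (fun e => n1 (by linear_combination -e))
  have bT : ∀ T, Ray D T → T ≠ Z 1 → T ≠ Z 3 → mu 2 T = 0 := by
    intro T hT h1 h3
    refine h.oth 2 T hT ?_ ?_
    · have : (2 : ZMod (k + 3)) + 1 = 3 := by norm_num
      rwa [this]
    · have : (2 : ZMod (k + 3)) - 1 = 1 := by norm_num
      rwa [this]
  rcases hi with rfl | rfl | rfl
  · obtain ⟨lam, l2, l1, l0, lT⟩ := KO.H40.fun3s (D := D) (X := Z 2) (Y := Z 1) (Q := Z 0) (rZ 2)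
      (rZ 1) (rZ 0) (zne h fun e => n2 (by linear_combination e))
      (zne h fun e => n1 (by linear_combination e)) (nuA := mu 3) (nuB := mu 2)
      (by rw [a2]; norm_num) a1 a0 aT (by rw [b1]; norm_num) b2 b0 (fun T hT hne => by
        by_cases h3 : T = Z 3
        · rw [h3, b3]
          norm_num
        · rw [bT T hT hne h3])
    exact ⟨lam, l0, l2, l1, fun T hT h0 h2 h1 => lT T hT h2 h1 h0⟩
  · obtain ⟨lam, l2, l3, l0, lT⟩ := KO.H40.fun3s (D := D) (X := Z 2) (Y := Z 3) (Q := Z 0) (rZ 2)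
      (rZ 3) (rZ 0) (zne h fun e => n2 (by linear_combination e))
      (zne h fun e => n3 (by linear_combination e)) (nuA := mu 3) (nuB := -mu 2)
      (by rw [a2]; norm_num) a3 a0 aT (by rw [AddMonoidHom.neg_apply, b3]; norm_num)
      (by rw [AddMonoidHom.neg_apply, b2, neg_zero]) (by rw [AddMonoidHom.neg_apply, b0, neg_zero])
      (fun T hT hne => by
        rw [AddMonoidHom.neg_apply]
        by_cases h1 : T = Z 1
        · rw [h1, b1]
          norm_num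
        · rw [bT T hT h1 hne, neg_zero])
    exact ⟨lam, l0, l2, l3, fun T hT h0 h2 h1 => lT T hT h2 h1 h0⟩
  · -- `mu 0`
    have c1 : mu 0 (Z 1) = 1 := mu_nx h (by norm_num)
    have cm : mu 0 (Z (-1)) = -1 := mu_pv h (by norm_num)
    have c0 : mu 0 (Z 0) = 0 := H52.cyc_self h 0
    have c2 : mu 0 (Z 2) = 0 := mu_far h (fun e => n1 (by linear_combination e))
      (fun e => n3 (by linear_combination e))
    have cT : ∀ T, Ray D T → T ≠ Z (-1) → 0 ≤ mu 0 T := by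
      intro T hT hne
      by_cases h4 : T = Z 1
      · rw [h4, c1]
        norm_num
      · rw [h.oth 0 T hT (by
          have : (0 : ZMod (k + 3)) + 1 = 1 := by norm_num
          rwa [this]) (by
          have : (0 : ZMod (k + 3)) - 1 = -1 := by norm_num
          rwa [this])]
    have am : 0 ≤ mu 3 (Z (-1)) :=
      aT _ (rZ _) (zne h fun e => n3 (by linear_combination -e))
    obtain ⟨lam, l2, l3, l0, lT⟩ := KO.H40.fun3s (D := D) (X := Z 2) (Y := Z (-1)) (Q := Z 0) (rZ 2)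
      (rZ (-1)) (rZ 0) (zne h fun e => n2 (by linear_combination e))
      (zne h fun e => n1 (by linear_combination -e))
      (nuA := mu 3 + (mu 3 (Z (-1))) • mu 0) (nuB := mu 0)
      (by
        simp only [AddMonoidHom.add_apply, AddMonoidHom.smul_apply, smul_eq_mul, a2, c2]
        norm_num)
      (by
        simp only [AddMonoidHom.add_apply, AddMonoidHom.smul_apply, smul_eq_mul, cm]
        ring)
      (by
        simp only [AddMonoidHom.add_apply, AddMonoidHom.smul_apply, smul_eq_mul, a0, c0]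
        norm_num)
      (fun T hT hne => by
        simp only [AddMonoidHom.add_apply, AddMonoidHom.smul_apply, smul_eq_mul]
        by_cases h1 : T = Z (-1)
        · rw [h1, cm]
          omega
        · exact add_nonneg (aT T hT hne) (mul_nonneg am (cT T hT h1)))
      (by rw [cm]; norm_num) c2 c0 cT
    exact ⟨lam, l0, l2, l3, fun T hT h0 h2 h1 => lT T hT h2 h1 h0⟩

/-- The rays `Z 1`, `Z 3`, `Z (-1)`. -/
theorem hh_ray_i (hE2 : E2S) (hRS : RaySpanS) (hD : DD phi D) (h2 : 2 ≤ Module.finrank ℤ L)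
    (h : Cyc phi D eta k Z mu) (hk : 2 ≤ k) {i : ZMod (k + 3)}
    (hi : i = 1 ∨ i = 3 ∨ i = -1) (Y : Dp phi (Z 0) (Z 2))
    (hY : co (phO phi (Z 0) Y.i0) Y.i1 = Y.k1) (h1 : co (phO phi (Z 0) Y.i0) Y.i1 Y.T = 1)
    (e : (RO ℤ)ˣ) {x : Ker (co (phO phi (Z 0) Y.i0) Y.i1)}
    (hx : ((x : Ker (co phi Y.i0)) : L) = Z i) (hc : (HH D eta Y h1 e).coeff x ≠ 0) :
    Ray (HH D eta Y h1 e) x := by
  have n1 := KO.H40.one_ne k
  have n2 := KO.H40.two_ne k
  have n3 := KO.H40.three_ne (k := k) (by omega)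
  have n4 := KO67.four_ne hk
  have rZ : ∀ i, Ray D (Z i) := fun i => (h.mtl i).r0
  obtain ⟨lam, l0, l2, li, lT⟩ := face_i h hk hi
  have i0 : (0 : ZMod (k + 3)) ≠ i := by
    rintro rfl
    rcases hi with h3 | h3 | h3
    · exact n1 h3.symm
    · exact n3 h3.symm
    · exact n1 (by linear_combination h3)
  have i2 : (2 : ZMod (k + 3)) ≠ i := by
    rintro rfl
    rcases hi with h3 | h3 | h3
    · exact n1 (by linear_combination h3)
    · exact n1 (by linear_combination -h3)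
    · exact n3 (by linear_combination h3)
  have d02 := h.dis 0 2 (fun e => n2 e.symm)
  exact hh_ray hD.bin d02 Y hY h1 e hx (rZ i).2.1 l0 l2 li
    (KO.H40.face3 hRS hE2 hD h2 (rZ 0) (rZ 2) (rZ i) d02 (h.dis 0 i i0) (h.dis 2 i i2) l0 l2 li lT)
    hc

/-- `Z i` in the double kernel. -/
theorem exZ (h : Cyc phi D eta k Z mu) {i : ZMod (k + 3)} (h0 : 0 ≠ i) (h2 : 2 ≠ i)
    (Y : Dp phi (Z 0) (Z 2)) (hY : co (phO phi (Z 0) Y.i0) Y.i1 = Y.k1) :
    ∃ x : Ker (co (phO phi (Z 0) Y.i0) Y.i1), ((x : Ker (co phi Y.i0)) : L) = Z i := by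
  have p0 : phi (Z 0) Y.i0 = 1 := Y.h0
  have p2 : phi (Z 2) Y.i1 = 1 := by
    have h1 := Y.hk Y.T
    rw [Y.h1, Y.eT] at h1
    exact h1.symm
  refine ⟨⟨⟨Z i, KO.H40.port_zero (h.dis 0 i h0) p0⟩, ?_⟩, rfl⟩
  rw [mem_Ker, hY, Y.hk]
  exact KO.H40.port_zero (h.dis 2 i h2) p2

variable {f γ E : ℤ[X]} {psi : RO ℤ} {s n : ℤ}

/-- The coefficient of `Z 1`. -/
theorem co_z1 (hs : s = 1 ∨ s = -1) (hco : ∀ i, (eta (Z i) : RO ℤ) * D.coeff (Z i) = toLaurent (X * f))
    (hA : ∀ i, Ar4 D eta Z (toLaurent (X * f)) psi i) : (eta (Z 1) : RO ℤ) *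
      csm D (Z 0) (Z 2) (eta (Z 0) * tA) (eta (Z 2) * epsU hs n) (Z 1) =
        (1 - eps s n) * toLaurent ((1 + X) * f) := by
  have x1 := hco 1
  have x01 := (hA 0).a0.s01
  have x12 := (hA 0).a0.s12
  have x012 := (hA 0).a0.s012
  simp only [zero_add] at x01 x12 x012
  have hX : (toLaurent (X * f) : RO ℤ) = LaurentPolynomial.T 1 * toLaurent f := by
    rw [map_mul, toLaurent_X]
  have hX1 : (toLaurent ((1 + X) * f) : RO ℤ) = (1 + LaurentPolynomial.T 1) * toLaurent f := by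
    rw [map_mul, map_add, map_one, toLaurent_X]
  have g1 : Z 1 + Z 0 + Z 2 = Z 0 + Z 1 + Z 2 := by abel
  unfold csm
  rw [g1, add_comm (Z 1) (Z 0), Units.val_mul, Units.val_mul, tA_val, epsU_val, hX1]
  rw [hX] at x1 x01 x12 x012
  linear_combination x1 - LaurentPolynomial.T (-1) * x01 + eps s n * x12 -
    LaurentPolynomial.T (-1) * eps s n * x012 + (toLaurent f * (1 - eps s n) : RO ℤ) * TT1

/-- The coefficient of `Z 3`. -/
theorem co_z3 (hs : s = 1 ∨ s = -1) (hco : ∀ i, (eta (Z i) : RO ℤ) * D.coeff (Z i) = toLaurent (X * f))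
    (hA : ∀ i, Ar4 D eta Z (toLaurent (X * f)) psi i)
    (hγ : eps s n * (LaurentPolynomial.T 1 * toLaurent f - LaurentPolynomial.T (-1) * psi) =
      LaurentPolynomial.T 1 * toLaurent γ) : (eta (Z 3) : RO ℤ) *
      csm D (Z 0) (Z 2) (eta (Z 0) * tA) (eta (Z 2) * epsU hs n) (Z 3) =
        (1 - eps s n) * eps s (-n) * toLaurent (X * γ) := by
  have x3 := hco 3
  have x03 := (hA 0).s03
  have x23 := (hA 1).a0.s12
  have x023 := (hA 0).s023
  have q1 : (1 : ZMod (k + 3)) + 1 = 2 := by norm_num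
  have q2 : (1 : ZMod (k + 3)) + 2 = 3 := by norm_num
  simp only [zero_add] at x03 x023
  rw [q1, q2] at x23
  have hX : (toLaurent (X * f) : RO ℤ) = LaurentPolynomial.T 1 * toLaurent f := by
    rw [map_mul, toLaurent_X]
  have hX1 : (toLaurent (X * γ) : RO ℤ) = LaurentPolynomial.T 1 * toLaurent γ := by
    rw [map_mul, toLaurent_X]
  have g1 : Z 3 + Z 0 + Z 2 = Z 0 + Z 2 + Z 3 := by abel
  have hi := eps_inv hs n
  unfold csm
  rw [g1, add_comm (Z 3) (Z 0), add_comm (Z 3) (Z 2), Units.val_mul, Units.val_mul, tA_val,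
    epsU_val, hX1]
  rw [hX] at x3 x23
  linear_combination x3 - LaurentPolynomial.T (-1) * x03 + eps s n * x23 -
    LaurentPolynomial.T (-1) * eps s n * x023 + (1 - eps s n) * eps s (-n) * hγ -
    (1 - eps s n) * (LaurentPolynomial.T 1 * toLaurent f - LaurentPolynomial.T (-1) * psi) * hi

/-- The coefficient of `Z (-1)`. -/
theorem co_zm (hs : s = 1 ∨ s = -1) (hco : ∀ i, (eta (Z i) : RO ℤ) * D.coeff (Z i) = toLaurent (X * f))
    (hA : ∀ i, Ar4 D eta Z (toLaurent (X * f)) psi i) : (eta (Z (-1)) : RO ℤ) *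
      csm D (Z 0) (Z 2) (eta (Z 0) * tA) (eta (Z 2) * epsU hs n) (Z (-1)) =
        (1 + LaurentPolynomial.T (-1)) * (toLaurent (X * f) + eps s n * psi) := by
  have xm := hco (-1)
  have xm0 := (hA (-1)).a0.s01
  have xm2 := (hA (-1)).s03
  have xm02 := (hA (-1)).s013
  have q1 : (-1 : ZMod (k + 3)) + 1 = 0 := by norm_num
  have q2 : (-1 : ZMod (k + 3)) + 3 = 2 := by norm_num
  rw [q1] at xm0 xm02
  rw [q2] at xm2 xm02
  unfold csm
  rw [Units.val_mul, Units.val_mul, tA_val, epsU_val]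
  linear_combination xm - LaurentPolynomial.T (-1) * xm0 + eps s n * xm2 -
    LaurentPolynomial.T (-1) * eps s n * xm02

/-- The constant coefficient. -/
theorem co_z0 (hs : s = 1 ∨ s = -1) (hco : ∀ i, (eta (Z i) : RO ℤ) * D.coeff (Z i) = toLaurent (X * f))
    (hA : ∀ i, Ar4 D eta Z (toLaurent (X * f)) psi i)
    (hγ : eps s n * (LaurentPolynomial.T 1 * toLaurent f - LaurentPolynomial.T (-1) * psi) =
      LaurentPolynomial.T 1 * toLaurent γ)
    (h0 : D.coeff 0 + ((eta (Z 0) * tA : (RO ℤ)ˣ) : RO ℤ) * D.coeff (Z 0) = -toLaurent (X * E)) :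
      csm D (Z 0) (Z 2) (eta (Z 0) * tA) (eta (Z 2) * epsU hs n) 0 =
        -toLaurent (X * (E - γ)) := by
  have x2 := hco 2
  have x02 := (hA 0).a0.s02
  simp only [zero_add] at x02
  have hX : (toLaurent (X * f) : RO ℤ) = LaurentPolynomial.T 1 * toLaurent f := by
    rw [map_mul, toLaurent_X]
  have hX1 : (toLaurent (X * (E - γ)) : RO ℤ) = toLaurent (X * E) -
      LaurentPolynomial.T 1 * toLaurent γ := by
    rw [mul_sub, map_sub, map_mul toLaurent X γ, toLaurent_X]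
  rw [Units.val_mul, tA_val] at h0
  unfold csm
  rw [zero_add, zero_add, Units.val_mul, Units.val_mul, tA_val, epsU_val, hX1]
  rw [hX] at x2
  linear_combination h0 + eps s n * x2 - LaurentPolynomial.T (-1) * eps s n * x02 + hγ

end

end Pool.Agent.B5.KO.H39
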