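import Pool.Agent.Lib.MP_b5021c_nt.KO.H39.S5a3
import Pool.Agent.Lib.MP_b5021c_nt.KO.H23.S5aT
import Pool.Agent.Lib.MP_b5021c_nt.E.H67.Rfc
import Pool.Agent.Lib.MP_b5021c_nt.KE.H96.One

/-!
# MP_b5021c_nt, all `θ`, K odd, (O4), length at least five: row OC_S5A
-/

set_option linter.unusedSectionVars false

namespace Pool.Agent.B5.KO.H39

open scoped LaurentPolynomial
open Polynomial
open Pool.Agent.B5 Pool.Agent.B5.KE
open Pool.Agent.B5.Nr (TrezS)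
open Pool.Agent.B5.KV67 (TT1 tA_val)
open Pool.Agent.B5.OC (Oc Ar3 Ar4)

/-! ## One variable -/

/-- `|γ| < |E|` in the open disc. -/
theorem lt_disc (hVZ : VZS) {E γ : ℤ[X]} (hE : ∀ z : ℂ, ‖z‖ ≤ 1 → (aeval z E : ℂ) ≠ 0)
    (h1 : ∀ z : ℂ, ‖z‖ = 1 → ‖(aeval z γ : ℂ)‖ ≤ ‖(aeval z E : ℂ)‖)
    (h2 : ∃ z : ℂ, ‖z‖ = 1 ∧ ‖(aeval z γ : ℂ)‖ ≠ ‖(aeval z E : ℂ)‖) (z : ℂ) (hz : ‖z‖ < 1) :
    ‖(aeval z γ : ℂ)‖ < ‖(aeval z E : ℂ)‖ := by
  have h3 := hVZ (E.map (Coef.emb : ℤ →+* ℂ)) (γ.map (Coef.emb : ℤ →+* ℂ))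
    (fun z hz => by rw [ev_map]; exact hE z hz) (fun z hz => by rw [ev_map, ev_map]; exact h1 z hz)
    (by
      obtain ⟨z, hz, hne⟩ := h2
      exact ⟨z, hz, by rw [ev_map, ev_map]; exact hne⟩) z hz
  rwa [ev_map, ev_map] at h3

/-- No double zero on the circle. -/
theorem nod_of (hNd : Nd3vS) {E γ : ℤ[X]} (hE : ∀ z : ℂ, ‖z‖ ≤ 1 → (aeval z E : ℂ) ≠ 0)
    (h1 : ∀ z : ℂ, ‖z‖ = 1 → ‖(aeval z γ : ℂ)‖ ≤ ‖(aeval z E : ℂ)‖) (h0 : E - γ ≠ 0) (z0 : ℂ)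
    (hz0 : ‖z0‖ = 1) : ¬ (X - Polynomial.C z0) ^ 2 ∣ (E - γ).map (Coef.emb : ℤ →+* ℂ) := by
  refine hNd (E.map (Coef.emb : ℤ →+* ℂ)) _ z0 (fun z hz => by rw [ev_map]; exact hE z hz) ?_ ?_ hz0
  · intro z hz
    rw [ev_map, ev_map, map_sub, sub_mul, Complex.sub_re, Complex.mul_conj,
      Complex.ofReal_re, Complex.normSq_eq_norm_sq]
    have h3 : ((aeval z γ : ℂ) * (starRingEnd ℂ) (aeval z E : ℂ)).re ≤
        ‖(aeval z γ : ℂ)‖ * ‖(aeval z E : ℂ)‖ := by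
      refine le_trans (Complex.re_le_norm _) ?_
      rw [norm_mul, RCLike.norm_conj]
    have h4 := h1 z hz
    have h5 := norm_nonneg (aeval z E : ℂ)
    nlinarith
  · intro h3
    apply h0
    exact (Polynomial.map_eq_zero_iff (Int.cast_injective (α := ℂ))).mp h3

theorem root_int {p : ℤ[X]} (h : (aeval (-1 : ℂ) p : ℂ) = 0) : ∃ r : ℤ[X], p = (1 + X) * r := by
  have h1 : p.IsRoot (-1) := by
    have h2 : (aeval (-1 : ℂ) p : ℂ) = ((p.eval (-1) : ℤ) : ℂ) := by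
      have h3 := Polynomial.aeval_algebraMap_apply ℂ (-1 : ℤ) p
      rw [coe_aeval_eq_eval] at h3
      simpa using h3
    rw [h2] at h
    exact_mod_cast h
  obtain ⟨r, hr⟩ := dvd_iff_isRoot.mpr h1
  refine ⟨r, ?_⟩
  rw [hr]
  simp only [map_neg, map_one]
  ring

/-- The content. -/
theorem content_of (hM1 : M1S) (hMm : MmulS) (hMV : MVS) {c : RO ℤ} (hc : ClassV 1 c)
    (hz : ∀ z : Circle, evR z c = 0 → (z : ℂ) = -1)
    (hnd : ∀ x : RO ℤ, c ≠ toLaurent ((1 + X) ^ 2) * x) :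
    (∃ u : (RO ℤ)ˣ, c = (u : RO ℤ)) ∨
      ((∃ z : Circle, evR z c = 0) ∧ ∃ u : (RO ℤ)ˣ, c = (u : RO ℤ) * toLaurent (1 + X)) := by
  obtain ⟨hc0, hcM⟩ := (hMV ℤ).1 _ _ hc
  by_cases h0 : ∃ z : Circle, evR z c = 0
  · refine Or.inr ⟨h0, ?_⟩
    obtain ⟨z, hz0⟩ := h0
    have hz1 := hz z hz0
    obtain ⟨n, c', hc', -, -, -⟩ := H78.classV_nf hc
    have h1 : (aeval (-1 : ℂ) c' : ℂ) = 0 := by
      rw [hc', map_mul, KO67.evT67, KO58.evR_pl, hz1] at hz0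
      exact (mul_eq_zero.mp hz0).resolve_left (zpow_ne_zero _ (by norm_num))
    obtain ⟨r, hr⟩ := root_int h1
    have h2 : c = (LaurentPolynomial.T n * toLaurent (1 + X)) * toLaurent r := by
      rw [hc', hr, map_mul]
      ring
    have h3 : ClassV 1 (LaurentPolynomial.T n * toLaurent (1 + X) : RO ℤ) := by
      refine H66.classV_of (a := n) (x' := 1 + X) le_rfl rfl (by simp) ?_
      intro w hw
      rw [KO67.aeval_emb, map_add, map_one, aeval_X]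
      intro h4
      have h5 : w = -1 := by linear_combination h4
      rw [h5, norm_neg, norm_one] at hw
      exact lt_irrefl _ hw
    obtain ⟨h4, h5⟩ := (hMV ℤ).1 _ _ h3
    have hr0 : (toLaurent r : RO ℤ) ≠ 0 := by
      intro h6
      rw [h6, mul_zero] at h2
      exact hc0 h2
    have h6 : M (toLaurent r : RO ℤ) = 1 := by
      rw [h2, (hMm ℤ).1 _ _ h4 hr0, h5, one_mul] at hcM
      exact hcM
    have h7 : IsUnit (toLaurent r : RO ℤ) := by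
      refine hM1 ℤ _ hr0 h6 ?_
      intro w hw
      have h8 := hz w (by rw [h2, map_mul, hw, mul_zero])
      rw [KO58.evR_pl, h8] at hw
      obtain ⟨r', hr'⟩ := root_int hw
      apply hnd (LaurentPolynomial.T n * toLaurent r')
      rw [h2, hr', map_mul, map_pow]
      ring
    obtain ⟨v, hv⟩ := h7
    refine ⟨H40.uT (1 : ℤˣ) n * v, ?_⟩
    rw [h2, Units.val_mul, H40.uT_val, Units.val_one, map_one, one_mul, hv]
    ring
  · left
    push Not at h0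
    obtain ⟨u, hu⟩ := hM1 ℤ c hc0 hcM h0
    exact ⟨u, hu.symm⟩

section

variable {P : Type} [Fintype P] [DecidableEq P] {L : Type} [AddCommGroup L] [Module.Free ℤ L]
  [Module.Finite ℤ L] {phi : L →+ (P → ℤ)} {D : AO ℤ L} {eta : L → (RO ℤ)ˣ} {k : ℕ}
  {Z : ZMod (k + 3) → L} {mu : ZMod (k + 3) → L →+ ℤ} {q f γ E : ℤ[X]} {a : ℝ} {j : ℕ}
  {C : Set L} {psi : RO ℤ} {s n : ℤ}

/-- A common zero of the closing on the circle. -/
theorem zero_pt (hs : s = 1 ∨ s = -1) (W : Oc phi D q f E a j eta C k Z mu) (hk : 2 ≤ k)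
    (hA : ∀ i, Ar4 D eta Z (toLaurent (X * f)) psi i)
    (hγ : eps s n * (LaurentPolynomial.T 1 * toLaurent f - LaurentPolynomial.T (-1) * psi) =
      LaurentPolynomial.T 1 * toLaurent γ) (Y : Dp phi (Z 0) (Z 2)) (G : Gd phi D E j eta Z Y)
    (h1 : co (phO phi (Z 0) Y.i0) Y.i1 Y.T = 1)
    (c0 : (HH D eta Y h1 (eta (Z 2) * epsU hs n)).coeff 0 = -toLaurent (X * (E - γ)))
    (z : Circle)
    (hz : ∀ x, evR z ((HH D eta Y h1 (eta (Z 2) * epsU hs n)).coeff x) = 0) :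
    (z : ℂ) = -1 ∧ evR z (eps s n) = 1 ∧ (aeval (z : ℂ) E : ℂ) = aeval (z : ℂ) γ := by
  have h := W.cyc
  have hD := W.kb.ko.min.fp.dd
  have n1 := KO.H40.one_ne k
  have n2 := KO.H40.two_ne k
  have n3 := KO.H40.three_ne (k := k) (by omega)
  have n4 := KO67.four_ne hk
  have d02 := h.dis 0 2 (fun e => n2 e.symm)
  have zne0 : (z : ℂ) ≠ 0 := Circle.coe_ne_zero z
  have hT1 : evR z (LaurentPolynomial.T 1 : RO ℤ) = (z : ℂ) := by rw [KO67.evT67, zpow_one]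
  have hTm : evR z (LaurentPolynomial.T (-1) : RO ℤ) = (z : ℂ)⁻¹ := by
    rw [KO67.evT67, zpow_neg_one]
  have hEg : (aeval (z : ℂ) E : ℂ) = aeval (z : ℂ) γ := by
    have h3 := hz 0
    rw [c0, map_neg, KO58.evR_pl, neg_eq_zero, map_mul, aeval_X, map_sub] at h3
    exact sub_eq_zero.mp ((mul_eq_zero.mp h3).resolve_left zne0)
  have hEne : (aeval (z : ℂ) E : ℂ) ≠ 0 := W.Ez z (Circle.norm_coe z).le
  have key : ∀ (i : ZMod (k + 3)) (F : RO ℤ), 0 ≠ i → 2 ≠ i →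
      (eta (Z i) : RO ℤ) * csm D (Z 0) (Z 2) (eta (Z 0) * tA) (eta (Z 2) * epsU hs n) (Z i) = F →
        evR z F = 0 := by
    intro i F hi0 hi2 hF
    obtain ⟨x, hx⟩ := exZ h hi0 hi2 Y G.co1
    have h3 := hz x
    rw [hh_csm hD.bin d02 Y G.co1 h1, hx] at h3
    rw [← hF, map_mul, h3, mul_zero]
  have he1 : evR z (eps s n) = 1 := by
    have h3 := key 3 _ (fun e => n3 e.symm) (fun e => n1 (by linear_combination -e))
      (co_z3 hs W.co hA hγ)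
    rw [map_mul, map_mul, map_sub, map_one, KO58.evR_pl, map_mul, aeval_X, ← hEg] at h3
    have hi : evR z (eps s n) * evR z (eps s (-n)) = 1 := by
      rw [← map_mul, eps_inv hs, map_one]
    have hi0 : evR z (eps s (-n)) ≠ 0 := right_ne_zero_of_mul (hi.trans_ne one_ne_zero)
    have h4 := (mul_eq_zero.mp h3).resolve_right (mul_ne_zero zne0 hEne)
    exact (sub_eq_zero.mp ((mul_eq_zero.mp h4).resolve_right hi0)).symm
  refine ⟨?_, he1, hEg⟩
  have h3 := key (-1) _ (fun e => n1 (by linear_combination e))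
    (fun e => n3 (by linear_combination e)) (co_zm hs W.co hA)
  rw [map_mul, map_add, map_one, hTm, map_add, KO58.evR_pl, map_mul (evR z) (eps s n) psi, he1,
    one_mul, map_mul, aeval_X] at h3
  have h4 := congrArg (evR z) hγ
  rw [map_mul, he1, one_mul, map_sub, map_mul, map_mul, map_mul, hT1, hTm, KO58.evR_pl,
    KO58.evR_pl, ← hEg] at h4
  rcases mul_eq_zero.mp h3 with h5 | h5
  · have h6 : (z : ℂ) + 1 = 0 := by
      have : (z : ℂ) * (1 + (z : ℂ)⁻¹) = 0 := by rw [h5, mul_zero]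
      rwa [mul_add, mul_one, mul_inv_cancel₀ zne0] at this
    linear_combination h6
  · exfalso
    apply W.cusp z (Circle.norm_coe z)
    have h7 := congrArg (fun p : ℤ[X] => (aeval (z : ℂ) p : ℂ)) W.eE
    simp only [map_sub, map_mul, aeval_X] at h7
    rw [map_add, map_mul, aeval_X]
    have h8 : (z : ℂ)⁻¹ * z = 1 := inv_mul_cancel₀ zne0
    linear_combination h4 - h7 + (z : ℂ)⁻¹ * h5 - (aeval (z : ℂ) f : ℂ) * h8
  
end

end Pool.Agent.B5.KO.H39
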