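import Pool.Agent.Lib.MP_b5021c_nt.IfaceOC

/-!
# MP_b5021c_nt, all `θ`, K odd, (O4), length at least five: row OC_S5A, interface

`G` = the closing A at `Z 0` (class `V(j+1)`, rank `2 j`); `(Z 2, Z 3)` is mutual in `G` at the loads
`eta`.  `s5a_small` (helper23): the closing of `G` at `Z 2` with the load `eta (Z 2) * ε` has no small
factor if its content has measure one.
-/

set_option linter.unusedSectionVars false

namespace Pool.Agent.B5.KO.H39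

open scoped LaurentPolynomial
open Polynomial
open Pool.Agent.B5 Pool.Agent.B5.KE

/-- `s z^n`. -/
noncomputable def eps (s n : ℤ) : RO ℤ := LaurentPolynomial.C s * LaurentPolynomial.T n

theorem s_sq {s : ℤ} (hs : s = 1 ∨ s = -1) : s * s = 1 := by
  rcases hs with h | h <;> rw [h] <;> norm_num

theorem eps_mul {s : ℤ} (hs : s = 1 ∨ s = -1) (n m : ℤ) :
    eps s n * eps s m = LaurentPolynomial.T (n + m) := by
  unfold eps
  rw [LaurentPolynomial.T_add]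
  have h1 : (LaurentPolynomial.C s * LaurentPolynomial.C s : RO ℤ) = 1 := by
    rw [← map_mul, s_sq hs, map_one]
  linear_combination (LaurentPolynomial.T n * LaurentPolynomial.T m : RO ℤ) * h1

theorem eps_inv {s : ℤ} (hs : s = 1 ∨ s = -1) (n : ℤ) : eps s n * eps s (-n) = 1 := by
  rw [eps_mul hs, add_neg_cancel, LaurentPolynomial.T_zero]

/-- `s z^n` as a unit. -/
noncomputable def epsU {s : ℤ} (hs : s = 1 ∨ s = -1) (n : ℤ) : (RO ℤ)ˣ :=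
  ⟨eps s n, eps s (-n), eps_inv hs n, by rw [mul_comm]; exact eps_inv hs n⟩

theorem epsU_val {s : ℤ} (hs : s = 1 ∨ s = -1) (n : ℤ) : ((epsU hs n : (RO ℤ)ˣ) : RO ℤ) = eps s n :=
  rfl

theorem epsU_inv {s : ℤ} (hs : s = 1 ∨ s = -1) (n : ℤ) :
    (((epsU hs n)⁻¹ : (RO ℤ)ˣ) : RO ℤ) = eps s (-n) := rfl

section

variable {P : Type} [Fintype P] [DecidableEq P] {L : Type} [AddCommGroup L] [Module.Free ℤ L]
  [Module.Finite ℤ L]

/-- The closing A at `Z 0`. -/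
noncomputable abbrev GG {phi : L →+ (P → ℤ)} (D : AO ℤ L) (eta : L → (RO ℤ)ˣ) {S S2 : L}
    (Y : Dp phi S S2) : AO ℤ (Ker (co phi Y.i0)) :=
  cl (co phi Y.i0) S Y.h0 (eta S * tA) D

/-- The closing A at `Z 0` (of a cycle of length at least five, `psi ≠ z² f`): the data. -/
structure Gd (phi : L →+ (P → ℤ)) (D : AO ℤ L) (E : ℤ[X]) (j : ℕ) (eta : L → (RO ℤ)ˣ) {k : ℕ}
    (Z : ZMod (k + 3) → L) (Y : Dp phi (Z 0) (Z 2)) : Prop where
  dd : DD (phO phi (Z 0) Y.i0) (GG D eta Y)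
  co1 : co (phO phi (Z 0) Y.i0) Y.i1 = Y.k1
  c0 : (GG D eta Y).coeff 0 = -toLaurent (X * E)
  cv : ClassV ((j : ℝ) + 1) ((GG D eta Y).coeff 0)
  rkG : Module.finrank ℤ (Ker (co phi Y.i0)) = 2 * j
  im : ImS phi (Z 0)
  ray : ∀ x : Ker (co phi Y.i0), ((x : L) = Z 2 ∨ (x : L) = Z 3) →
    Ray (GG D eta Y) x ∧ ImS (phO phi (Z 0) Y.i0) x
  mt : ∀ x : Ker (co phi Y.i0), (x : L) = Z 3 →
    Mut (GG D eta Y) Y.T x (eta (Z 2)) (eta (Z 3))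
  fr : ∀ (e : (RO ℤ)ˣ), e ≠ eta (Z 2) → ∀ (h : co (phO phi (Z 0) Y.i0) Y.i1 Y.T = 1),
    Module.finrank ℤ (Ker (co phi Y.i0)) =
      rk (supp (cl (co (phO phi (Z 0) Y.i0) Y.i1) Y.T h e (GG D eta Y))) + 1
  dr : ∀ (h : co (phO phi (Z 0) Y.i0) Y.i1 Y.T = 1), Module.finrank ℤ (Ker (co phi Y.i0)) ≠
      rk (supp (cl (co (phO phi (Z 0) Y.i0) Y.i1) Y.T h (eta (Z 2)) (GG D eta Y))) + 1

/-- (helper23) no small factor of the closing of `G` at `Z 2` with the load `eta (Z 2) * ε`. -/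
def NsmS : Prop := ∀ (P L : Type) [Fintype P] [DecidableEq P] [AddCommGroup L]
  [Module.Free ℤ L] [Module.Finite ℤ L] (phi : L →+ (P → ℤ)) (D : AO ℤ L) (q f E γ : ℤ[X])
  (a : ℝ) (j : ℕ) (eta : L → (RO ℤ)ˣ) (C : Set L) (k : ℕ) (Z : ZMod (k + 3) → L)
  (mu : ZMod (k + 3) → L →+ ℤ) (psi : RO ℤ) (s n : ℤ) (hs : s = 1 ∨ s = -1)
  (Y : Dp phi (Z 0) (Z 2)), OC.Oc phi D q f E a j eta C k Z mu →
    2 ≤ k → (∀ i, OC.Ar4 D eta Z (toLaurent (X * f)) psi i) →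
    (s ≠ 1 ∨ n ≠ 0) → 1 ≤ γ.coeff 0 →
    eps s n * (LaurentPolynomial.T 1 * toLaurent f - LaurentPolynomial.T (-1) * psi) =
      LaurentPolynomial.T 1 * toLaurent γ →
    Gd phi D E j eta Z Y →
    (∀ z0 : ℂ, ‖z0‖ = 1 → ¬ (X - Polynomial.C z0) ^ 2 ∣ (E - γ).map (Coef.emb : ℤ →+* ℂ)) →
    E.coeff 0 ≠ γ.coeff 0 →
    ∀ (h : co (phO phi (Z 0) Y.i0) Y.i1 Y.T = 1) (c : RO ℤ) (m : ℕ)
      (G : Fin m → AO ℤ (Ker (co (phO phi (Z 0) Y.i0) Y.i1))),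
      FD (phO phi (Z 0) Y.i0) (GG D eta Y) Y.T Y.i1 (eta (Z 2) * epsU hs n) h c m G → M c = 1 →
        ¬ (snp (phO phi (Z 0) Y.i0) Y.T Y.i1 G).Nonempty

end

end Pool.Agent.B5.KO.H39
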